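import Pool.Agent.H66.PS.Defs

set_option autoImplicit false

/-!
# The small configurations (helper264)
-/

namespace Pool.Agent.H66.PS

open Finset

namespace BASL

section

variable {α V : Type} [DecidableEq α] [DecidableEq V]

lemma imim_inj {g : α → V} (hg : Function.Injective g) :
    Function.Injective (Finset.image g) := Finset.image_injective hg

/-- pull back -/
lemma pull {g : α → V} (hg : Function.Injective g) {W : Finset α} {S : Finset (Finset α)}
    {U : Finset V} (hU : U ⊆ W.image g) {T : Finset (Finset V)} (hT : T ⊆ S.image (Finset.image g))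
    (hTU : ∀ f ∈ T, f ⊆ U) : ∃ U' ⊆ W, U'.image g = U ∧ U'.card = U.card ∧
      ∃ T' ⊆ S, T'.card = T.card ∧ ∀ f ∈ T', f ⊆ U' := by
  obtain ⟨U', hU', rfl⟩ := Finset.subset_image_iff.1 hU
  obtain ⟨T', hT', rfl⟩ := Finset.subset_image_iff.1 hT
  refine ⟨U', hU', rfl, (card_image_of_injective _ hg).symm, T', hT',
    (card_image_of_injective _ (imim_inj hg)).symm, fun f hf => ?_⟩
  exact (Finset.image_subset_image_iff hg).1 (hTU _ (mem_image_of_mem _ hf))

lemma tr_chn {g : α → V} (hg : Function.Injective g) {D E : ℕ} {A : Finset α}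
    {S : Finset (Finset α)} (h : Chn D E A S) :
    Chn D E (A.image g) (S.image (Finset.image g)) := by
  obtain ⟨c, h1, h2, h3, h4⟩ := h
  refine ⟨fun i => (c i).image (Finset.image g), fun i hi => ?_, fun i j hij hj => ?_, ?_,
    fun i hi => ?_⟩
  · rw [card_image_of_injective _ (imim_inj hg)]
    exact h1 i hi
  · exact image_subset_image (h2 i j hij hj)
  · change (c E).image (Finset.image g) = _
    rw [h3]
  · have e1 : ((c i).image (Finset.image g)).biUnion id ∪ A.image g =
        ((c i).biUnion id ∪ A).image g := by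
      rw [image_union]
      congr 1
      ext v
      simp only [mem_biUnion, mem_image, id]
      constructor
      · rintro ⟨_, ⟨f, hf, rfl⟩, hv⟩
        obtain ⟨a, ha, rfl⟩ := mem_image.1 hv
        exact ⟨a, ⟨f, hf, ha⟩, rfl⟩
      · rintro ⟨a, ⟨f, hf, ha⟩, rfl⟩
        exact ⟨_, ⟨f, hf, rfl⟩, mem_image_of_mem _ ha⟩
    change (((c i).image (Finset.image g)).biUnion id ∪ A.image g).card ≤ i + D
    rw [e1, card_image_of_injective _ hg]
    exact h4 i hi

lemma tr_strong {g : α → V} (hg : Function.Injective g) {D : ℕ} {I W : Finset α}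
    {S : Finset (Finset α)} (h : Strong D I W S) :
    Strong D (I.image g) (W.image g) (S.image (Finset.image g)) := by
  refine ⟨?_, image_subset_image h.IW, ?_, ?_⟩
  · rw [card_image_of_injective _ hg]; exact h.cI
  · intro f hf
    obtain ⟨f', hf', rfl⟩ := mem_image.1 hf
    rw [Finset.image_subset_image_iff hg]
    exact h.st0 f' hf'
  · intro U hU T hT hTU hIU hne
    obtain ⟨U', hU', rfl, hc, T', hT', hc', hTU'⟩ := pull hg hU hT hTU
    rw [← hc, ← hc']
    refine h.st U' hU' T' hT' hTU' ((Finset.image_subset_image_iff hg).1 hIU) ?_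
    intro h1
    exact hne (by rw [h1])

lemma tr_pre {g : α → V} (hg : Function.Injective g) {D E : ℕ} {I W : Finset α}
    {S : Finset (Finset α)} (h : Pre D E I W S) :
    Pre D E (I.image g) (W.image g) (S.image (Finset.image g)) := by
  refine ⟨?_, ?_, ?_, tr_strong hg h.str, tr_chn hg h.ch⟩
  · intro f hf
    obtain ⟨f', hf', rfl⟩ := mem_image.1 hf
    exact image_subset_image (h.sub f' hf')
  · rw [card_image_of_injective _ (imim_inj hg)]; exact h.cS
  · rw [card_image_of_injective _ hg]; exact h.cW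

lemma not_mem_im {g : α → V} (hg : Function.Injective g) {a : α} {I : Finset α} (h : a ∉ I) :
    g a ∉ I.image g := by
  rw [mem_image]
  rintro ⟨b, hb, hba⟩
  exact h (hg hba ▸ hb)

lemma tr_state {g : α → V} (hg : Function.Injective g) {D E : ℕ} {I J : Finset α} {w s : α}
    {W : Finset α} {S : Finset (Finset α)} (h : State D E I J w s W S) :
    State D E (I.image g) (J.image g) (g w) (g s) (W.image g) (S.image (Finset.image g)) := by
  have hind : ∀ (A : Finset α),
      (∀ U ⊆ W, ∀ T ⊆ S, (∀ f ∈ T, f ⊆ U) → T.card + (U ∩ A).card ≤ U.card) →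
      ∀ U ⊆ W.image g, ∀ T ⊆ S.image (Finset.image g), (∀ f ∈ T, f ⊆ U) →
        T.card + (U ∩ A.image g).card ≤ U.card := by
    intro A hA U hU T hT hTU
    obtain ⟨U', hU', rfl, hc, T', hT', hc', hTU'⟩ := pull hg hU hT hTU
    rw [← image_inter _ _ hg, card_image_of_injective _ hg, card_image_of_injective _ hg, ← hc']
    exact hA U' hU' T' hT' hTU'
  refine ⟨?_, ?_, ?_, tr_strong hg h.strI, tr_strong hg h.strJ, mem_image_of_mem _ h.wW,
    mem_image_of_mem _ h.sW, ?_, not_mem_im hg h.wI, not_mem_im hg h.wJ, not_mem_im hg h.sI,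
    not_mem_im hg h.sJ, fun h1 => h.ws (hg h1), ?_, ?_, ?_, ?_, ?_, ?_⟩
  · intro f hf
    obtain ⟨f', hf', rfl⟩ := mem_image.1 hf
    exact image_subset_image (h.sub f' hf')
  · rw [card_image_of_injective _ (imim_inj hg)]; exact h.cS
  · rw [card_image_of_injective _ hg]; exact h.cW
  · exact (Finset.disjoint_image hg).2 h.dIJ
  · intro U hU T hT hTU h1
    obtain ⟨U', hU', rfl, hc, T', hT', hc', hTU'⟩ := pull hg hU hT hTU
    rw [← hc] at h1 ⊢
    rw [← hc']
    exact h.g1 U' hU' T' hT' hTU' h1
  · intro U hU T hT hTU h1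
    obtain ⟨U', hU', rfl, hc, T', hT', hc', hTU'⟩ := pull hg hU hT hTU
    rw [← hc] at h1 ⊢
    rw [← hc']
    exact h.g2 U' hU' T' hT' hTU' h1
  · rw [← image_insert]
    exact hind _ h.indI
  · rw [← image_insert]
    exact hind _ h.indJ
  · rw [← image_insert]
    exact tr_chn hg h.chI
  · rw [← image_insert]
    exact tr_chn hg h.chJ

/-- chains from lists -/
lemma chn_list (D : ℕ) (A : Finset α) (l : List (Finset α)) (hn : l.Nodup)
    (h : ∀ i ≤ l.length, ((l.take i).toFinset.biUnion id ∪ A).card ≤ i + D) :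
    Chn D l.length A l.toFinset := by
  refine ⟨fun i => (l.take i).toFinset, fun i hi => ?_, fun i j hij _ => ?_, ?_, h⟩
  · change (l.take i).toFinset.card = i
    rw [List.toFinset_card_of_nodup (hn.sublist (List.take_sublist i l)), List.length_take]
    omega
  · intro f hf
    rw [List.mem_toFinset] at hf ⊢
    exact (List.take_subset_take_left l hij) hf
  · change (l.take l.length).toFinset = _
    rw [List.take_length]

/-- all edges inside `U` -/
lemma T_le {S T : Finset (Finset α)} {U : Finset α} (hT : T ⊆ S) (hTU : ∀ f ∈ T, f ⊆ U) :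
    T.card ≤ (S.filter fun f => f ⊆ U).card :=
  card_le_card fun f hf => mem_filter.2 ⟨hT hf, hTU f hf⟩

end

/-! ### The abstract configurations -/

def S3 : Finset (Finset (Fin 3)) := {{0, 1, 2}}

def S5 : Finset (Finset (Fin 5)) := {{0, 1, 2}, {0, 3, 4}}

def S8 : Finset (Finset (Fin 8)) := {{0, 1, 4}, {2, 1, 5}, {2, 3, 6}, {0, 3, 7}}

lemma d3 : ∀ U : Finset (Fin 3), ({0} : Finset (Fin 3)) ⊆ U → U ≠ {0} →
    (S3.filter fun f => f ⊆ U).card + 2 ≤ U.card := by decide +kernel

lemma d5 : ∀ U : Finset (Fin 5), ({1, 3} : Finset (Fin 5)) ⊆ U → U ≠ {1, 3} →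
    (S5.filter fun f => f ⊆ U).card + 3 ≤ U.card := by decide +kernel

lemma d8I : ∀ U : Finset (Fin 8), ({0, 5, 6} : Finset (Fin 8)) ⊆ U → U ≠ {0, 5, 6} →
    (S8.filter fun f => f ⊆ U).card + 4 ≤ U.card := by decide +kernel

lemma d8J : ∀ U : Finset (Fin 8), ({2, 7, 4} : Finset (Fin 8)) ⊆ U → U ≠ {2, 7, 4} →
    (S8.filter fun f => f ⊆ U).card + 4 ≤ U.card := by decide +kernel

lemma d8a : ∀ U : Finset (Fin 8), 1 ≤ U.card →
    (S8.filter fun f => f ⊆ U).card + 1 ≤ U.card := by decide +kernel

lemma d8b : ∀ U : Finset (Fin 8), 2 ≤ U.card →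
    (S8.filter fun f => f ⊆ U).card + 2 ≤ U.card := by decide +kernel

lemma d8c : ∀ U : Finset (Fin 8),
    (S8.filter fun f => f ⊆ U).card + (U ∩ insert 1 {0, 5, 6}).card ≤ U.card := by decide +kernel

lemma d8d : ∀ U : Finset (Fin 8),
    (S8.filter fun f => f ⊆ U).card + (U ∩ insert 3 {2, 7, 4}).card ≤ U.card := by decide +kernel

lemma pre3 : Pre 2 1 ({0} : Finset (Fin 3)) univ S3 := by
  refine ⟨fun f _ => subset_univ f, by decide +kernel, by decide +kernel,
    ⟨by decide +kernel, subset_univ _, by decide +kernel, ?_⟩, ?_⟩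
  · intro U _ T hT hTU hI hne
    exact (Nat.add_le_add_right (T_le hT hTU) 2).trans (d3 U hI hne)
  · have h := chn_list 2 ({0} : Finset (Fin 3)) [{0, 1, 2}] (by decide +kernel) (by decide +kernel)
    have e : ([{0, 1, 2}] : List (Finset (Fin 3))).toFinset = S3 := by decide +kernel
    rw [e] at h
    exact h

lemma pre5 : Pre 3 2 ({1, 3} : Finset (Fin 5)) univ S5 := by
  refine ⟨fun f _ => subset_univ f, by decide +kernel, by decide +kernel,
    ⟨by decide +kernel, subset_univ _, by decide +kernel, ?_⟩, ?_⟩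
  · intro U _ T hT hTU hI hne
    exact (Nat.add_le_add_right (T_le hT hTU) 3).trans (d5 U hI hne)
  · have h := chn_list 3 ({1, 3} : Finset (Fin 5)) [{0, 1, 2}, {0, 3, 4}] (by decide +kernel)
      (by decide +kernel)
    have e : ([{0, 1, 2}, {0, 3, 4}] : List (Finset (Fin 5))).toFinset = S5 := by decide +kernel
    rw [e] at h
    exact h

lemma state8 : State 4 4 ({0, 5, 6} : Finset (Fin 8)) {2, 7, 4} 1 3 univ S8 := by
  refine ⟨fun f _ => subset_univ f, by decide +kernel, by decide +kernel,
    ⟨by decide +kernel, subset_univ _, by decide +kernel, ?_⟩,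
    ⟨by decide +kernel, subset_univ _, by decide +kernel, ?_⟩, mem_univ _, mem_univ _,
    by decide +kernel, by decide +kernel, by decide +kernel, by decide +kernel,
    by decide +kernel, by decide +kernel, ?_, ?_, ?_, ?_, ?_, ?_⟩
  · intro U _ T hT hTU hI hne
    exact (Nat.add_le_add_right (T_le hT hTU) 4).trans (d8I U hI hne)
  · intro U _ T hT hTU hI hne
    exact (Nat.add_le_add_right (T_le hT hTU) 4).trans (d8J U hI hne)
  · intro U _ T hT hTU h1
    exact (Nat.add_le_add_right (T_le hT hTU) 1).trans (d8a U h1)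
  · intro U _ T hT hTU h1
    exact (Nat.add_le_add_right (T_le hT hTU) 2).trans (d8b U h1)
  · intro U _ T hT hTU
    exact (Nat.add_le_add_right (T_le hT hTU) _).trans (d8c U)
  · intro U _ T hT hTU
    exact (Nat.add_le_add_right (T_le hT hTU) _).trans (d8d U)
  · have h := chn_list 4 (insert 1 {0, 5, 6} : Finset (Fin 8))
      [{0, 1, 4}, {2, 1, 5}, {2, 3, 6}, {0, 3, 7}] (by decide +kernel) (by decide +kernel)
    have e : ([{0, 1, 4}, {2, 1, 5}, {2, 3, 6}, {0, 3, 7}] : List (Finset (Fin 8))).toFinset =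
        S8 := by decide +kernel
    rw [e] at h
    exact h
  · have h := chn_list 4 (insert 3 {2, 7, 4} : Finset (Fin 8))
      [{2, 3, 6}, {0, 3, 7}, {0, 1, 4}, {2, 1, 5}] (by decide +kernel) (by decide +kernel)
    have e : ([{2, 3, 6}, {0, 3, 7}, {0, 1, 4}, {2, 1, 5}] : List (Finset (Fin 8))).toFinset =
        S8 := by decide +kernel
    rw [e] at h
    exact h

lemma nodup_inj {V : Type} {n : ℕ} (f : Fin n → V) (h : (List.ofFn f).Nodup) :
    Function.Injective f := List.nodup_ofFn.1 h

end BASL

open BASL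

theorem t_pre : P_pre := by
  intro V _
  constructor
  · intro x y z hxy hxz hyz
    have hg : Function.Injective (![x, y, z] : Fin 3 → V) := by
      apply nodup_inj
      simp [hxy, hxz, hyz]
    have h := tr_pre hg pre3
    have e1 : ({0} : Finset (Fin 3)).image ![x, y, z] = {x} := by simp
    have e2 : (univ : Finset (Fin 3)).image ![x, y, z] = {x, y, z} := by
      have : (univ : Finset (Fin 3)) = {0, 1, 2} := by decide
      rw [this]; simp [image_insert]
    have e3 : S3.image (Finset.image ![x, y, z]) = {{x, y, z}} := by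
      unfold S3; simp [image_insert]
    rw [e1, e2, e3] at h
    exact h
  · intro x y z y' z' hnd
    have hg : Function.Injective (![x, y, z, y', z'] : Fin 5 → V) := by
      apply nodup_inj
      simpa using hnd
    have h := tr_pre hg pre5
    have e1 : ({1, 3} : Finset (Fin 5)).image ![x, y, z, y', z'] = {y, y'} := by
      simp [image_insert]
    have e2 : (univ : Finset (Fin 5)).image ![x, y, z, y', z'] = {x, y, z, y', z'} := by
      have : (univ : Finset (Fin 5)) = {0, 1, 2, 3, 4} := by decide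
      rw [this]; simp [image_insert]
    have e3 : S5.image (Finset.image ![x, y, z, y', z']) = {{x, y, z}, {x, y', z'}} := by
      unfold S5; simp [image_insert]
    rw [e1, e2, e3] at h
    exact h

theorem t_four : P_four := by
  intro V _ x y x' y' z1 z2 z3 z4 hnd
  have hg : Function.Injective (![x, y, x', y', z1, z2, z3, z4] : Fin 8 → V) := by
    apply nodup_inj
    simpa using hnd
  have h := tr_state hg state8
  have e1 : ({0, 5, 6} : Finset (Fin 8)).image ![x, y, x', y', z1, z2, z3, z4] = {x, z2, z3} := by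
    simp [image_insert]
  have e1' : ({2, 7, 4} : Finset (Fin 8)).image ![x, y, x', y', z1, z2, z3, z4] =
      {x', z4, z1} := by
    simp [image_insert]
  have e2 : (univ : Finset (Fin 8)).image ![x, y, x', y', z1, z2, z3, z4] =
      {x, y, x', y', z1, z2, z3, z4} := by
    have : (univ : Finset (Fin 8)) = {0, 1, 2, 3, 4, 5, 6, 7} := by decide
    rw [this]; simp [image_insert]
  have e3 : S8.image (Finset.image ![x, y, x', y', z1, z2, z3, z4]) =
      {{x, y, z1}, {x', y, z2}, {x', y', z3}, {x, y', z4}} := by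
    unfold S8; simp [image_insert]
  rw [e1, e1', e2, e3] at h
  exact h

end Pool.Agent.H66.PS
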