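import Mathlib
import Pool.Agent.H66.BES.Defs

set_option autoImplicit false

/-!
# Power saving for the Brown–Erdős–Sós problem: doubling

A configuration of dimension `D` with `E` edges has `E + D` vertices `W` and edge set `S`. Two
configurations which agree exactly on a set `I` of `D - 1` vertices are glued to a configuration of
dimension `D + 1` with `2 E` edges. By the Cauchy–Schwarz inequality there are many such pairs; if
most of the pairs share further vertices, then configurations grow without limit.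
-/

namespace Pool.Agent.H66.PS

open Finset SimpleGraph TripartiteFromTriangles Pool.Agent.H66.BES

section

variable {V : Type*} [DecidableEq V]

/-- `x` is a building order of the edge set `S` (with `E` edges) from the vertex set `A`: `i` edges and
`A` span at most `i + D` vertices. -/
def Chn (D E : ℕ) (A : Finset V) (S : Finset (Finset V)) : Prop :=
  ∃ c : ℕ → Finset (Finset V), (∀ i ≤ E, (c i).card = i) ∧
    (∀ i j, i ≤ j → j ≤ E → c i ⊆ c j) ∧ c E = S ∧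
    ∀ i ≤ E, ((c i).biUnion id ∪ A).card ≤ i + D

/-- every part `(U, T)` of `(W, S)` with `I ⊆ U` has `|T| + D ≤ |U|`, unless `U = I`, in which case
`T = ∅` -/
structure Strong (D : ℕ) (I W : Finset V) (S : Finset (Finset V)) : Prop where
  cI : I.card + 1 = D
  IW : I ⊆ W
  st0 : ∀ f ∈ S, ¬ f ⊆ I
  st : ∀ U ⊆ W, ∀ T ⊆ S, (∀ f ∈ T, f ⊆ U) → I ⊆ U → U ≠ I → T.card + D ≤ U.card

/-- A configuration of dimension `D` with `E` edges, which can be doubled along `I`. -/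
structure Pre (D E : ℕ) (I W : Finset V) (S : Finset (Finset V)) : Prop where
  sub : ∀ f ∈ S, f ⊆ W
  cS : S.card = E
  cW : W.card = E + D
  str : Strong D I W S
  ch : Chn D E I S

/-- A configuration of dimension `D` with `E` edges, with two disjoint sets `I`, `J` and two further
vertices `w`, `s`, which can be doubled along `I`, again and again. -/
structure State (D E : ℕ) (I J : Finset V) (w s : V) (W : Finset V) (S : Finset (Finset V)) :
    Prop where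
  sub : ∀ f ∈ S, f ⊆ W
  cS : S.card = E
  cW : W.card = E + D
  strI : Strong D I W S
  strJ : Strong D J W S
  wW : w ∈ W
  sW : s ∈ W
  dIJ : Disjoint I J
  wI : w ∉ I
  wJ : w ∉ J
  sI : s ∉ I
  sJ : s ∉ J
  ws : w ≠ s
  g1 : ∀ U ⊆ W, ∀ T ⊆ S, (∀ f ∈ T, f ⊆ U) → 1 ≤ U.card → T.card + 1 ≤ U.card
  g2 : ∀ U ⊆ W, ∀ T ⊆ S, (∀ f ∈ T, f ⊆ U) → 2 ≤ U.card → T.card + 2 ≤ U.card
  indI : ∀ U ⊆ W, ∀ T ⊆ S, (∀ f ∈ T, f ⊆ U) → T.card + (U ∩ insert w I).card ≤ U.card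
  indJ : ∀ U ⊆ W, ∀ T ⊆ S, (∀ f ∈ T, f ⊆ U) → T.card + (U ∩ insert s J).card ≤ U.card
  chI : Chn D E (insert w I) S
  chJ : Chn D E (insert s J) S

/-- the pairs of members of the family which agree exactly on `I` -/
noncomputable def clean {ι K : Type} (𝓕 : Finset ι) (κ : ι → K) (I W : ι → Finset V) :
    Finset (ι × ι) := by
  classical
  exact (𝓕 ×ˢ 𝓕).filter fun p => κ p.1 = κ p.2 ∧ W p.1 ∩ W p.2 ⊆ I p.1

/-- few members of the family lie in a small set -/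
def Mult {ι : Type} (𝓕 : Finset ι) (W : ι → Finset V) (q : ℕ) : Prop :=
  ∀ (U : Finset V), ∀ 𝓖 ⊆ 𝓕, (∀ t ∈ 𝓖, W t ⊆ U) → 𝓖.card ≤ U.card ^ q

/-- a family of configurations in `H` with large size: at least `a` members -/
def PreFam {N : ℕ} (H : Finset (Finset (Fin N))) (D E q : ℕ) (a : ℝ) : Prop :=
  ∃ (ι K : Type) (𝓕 : Finset ι) (κ : ι → K) (I W : ι → Finset (Fin N))
    (S : ι → Finset (Finset (Fin N))), (∀ t ∈ 𝓕, Pre D E (I t) (W t) (S t) ∧ S t ⊆ H) ∧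
    (∀ t ∈ 𝓕, ∀ u ∈ 𝓕, κ t = κ u → I t = I u) ∧ Mult 𝓕 W q ∧ a ≤ 𝓕.card

/-- a family of states in `H` with at least `a` members -/
def StateFam {N : ℕ} (H : Finset (Finset (Fin N))) (D E q : ℕ) (a : ℝ) : Prop :=
  ∃ (ι : Type) (𝓕 : Finset ι) (I J : ι → Finset (Fin N)) (w s : ι → Fin N)
    (W : ι → Finset (Fin N)) (S : ι → Finset (Finset (Fin N))),
    (∀ t ∈ 𝓕, State D E (I t) (J t) (w t) (s t) (W t) (S t) ∧ S t ⊆ H) ∧ Mult 𝓕 W q ∧
    a ≤ 𝓕.card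

end

/-! ### The statements -/

/-- growth: if configurations can always be attached along `I` and one further vertex, then all
numbers of edges occur with deficiency at most `D + 1` -/
def P_growth : Prop := ∀ (V : Type) [Fintype V] [DecidableEq V] (D E e : ℕ)
  (H : Finset (Finset V)) (ι : Type) (𝓕 : Finset ι) (I W : ι → Finset V)
  (S : ι → Finset (Finset V)), (∀ t ∈ 𝓕, Pre D E (I t) (W t) (S t) ∧ S t ⊆ H) → 𝓕.Nonempty →
  (∀ U : Finset V, U.card ≤ e + D → ∀ t0 ∈ 𝓕, W t0 ⊆ U → ∃ t ∈ 𝓕, ¬ W t ⊆ U ∧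
    I t ⊆ U ∧ ∃ v ∈ U, v ∈ W t ∧ v ∉ I t) →
  Conf H e (D + 1)

/-- the doubling lemma: many clean pairs, or growth -/
def P_double : Prop := ∀ (V : Type) [Fintype V] [DecidableEq V] (D E e q : ℕ)
  (H : Finset (Finset V)) (ι K : Type) (𝓕 : Finset ι) (κ : ι → K) (I W : ι → Finset V)
  (S : ι → Finset (Finset V)), (∀ t ∈ 𝓕, Pre D E (I t) (W t) (S t) ∧ S t ⊆ H) →
  (∀ t ∈ 𝓕, ∀ u ∈ 𝓕, κ t = κ u → I t = I u) → Mult 𝓕 W q →
  ∀ P : ℕ, (∀ 𝓖 : Finset K, (∀ k ∈ 𝓖, ∃ t ∈ 𝓕, κ t = k) → 𝓖.card ≤ P) →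
  Conf H e (D + 1) ∨
    𝓕.card ^ 2 ≤ P * ((clean 𝓕 κ I W).card + 2 * (e + D) ^ q * 𝓕.card)

/-- gluing two states -/
def P_glue : Prop := ∀ (V : Type) [DecidableEq V] (D E : ℕ) (I J1 J2 : Finset V)
  (w1 w2 s1 s2 : V) (W1 W2 : Finset V) (S1 S2 : Finset (Finset V)), 1 ≤ E →
  State D E I J1 w1 s1 W1 S1 → State D E I J2 w2 s2 W2 S2 → W1 ∩ W2 ⊆ I →
  State (D + 1) (2 * E) (insert w2 J1) (insert w1 J2) s1 s2 (W1 ∪ W2) (S1 ∪ S2)

/-- the configurations with one and two edges -/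
def P_pre : Prop := ∀ (V : Type) [DecidableEq V],
  (∀ x y z : V, x ≠ y → x ≠ z → y ≠ z → Pre 2 1 {x} {x, y, z} {{x, y, z}}) ∧
  (∀ x y z y' z' : V, [x, y, z, y', z'].Nodup →
    Pre 3 2 {y, y'} {x, y, z, y', z'} {{x, y, z}, {x, y', z'}})

/-- the configuration with four edges -/
def P_four : Prop := ∀ (V : Type) [DecidableEq V] (x y x' y' z1 z2 z3 z4 : V),
  [x, y, x', y', z1, z2, z3, z4].Nodup →
  State 4 4 {x, z2, z3} {x', z4, z1} y y' {x, y, x', y', z1, z2, z3, z4}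
    {{x, y, z1}, {x', y, z2}, {x', y', z3}, {x, y', z4}}

/-- the main theorem for triple systems -/
def P_main : Prop := ∀ (K e : ℕ), e ≤ 2 ^ K → ∃ C : ℝ, 0 < C ∧ ∀ n : ℕ, 1 ≤ n →
  ∀ (G : Finset (Fin n × Fin n × Fin n)), ExplicitDisjoint G →
    (∀ t ∈ G, t.1 ≠ t.2.1 ∧ t.1 ≠ t.2.2 ∧ t.2.1 ≠ t.2.2) →
    Conf (G.image fun t => ({t.1, t.2.1, t.2.2} : Finset (Fin n))) e (K + 2) ∨
      (G.card : ℝ) ≤ C * (n : ℝ) ^ (2 - 2 / (2 : ℝ) ^ K)

/-- the final theorem: `r = q + 3` -/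
def P_final : Prop := ∀ (q e : ℕ), 1 ≤ e → ∃ C : ℝ, 0 < C ∧ ∀ n : ℕ,
  ∀ H : Finset (Finset (Fin n)), (∀ f ∈ H, f.card = q + 3) →
    (∀ S ⊆ H, S.card = e → (q + 1) * e + 2 + Nat.clog 2 e < (S.biUnion id).card) →
    (H.card : ℝ) ≤ C * (n : ℝ) ^ (2 - 2 / (2 : ℝ) ^ (Nat.clog 2 e))

end Pool.Agent.H66.PS
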