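import Mathlib
import Pool.Agent.H66.PS.Defs

set_option autoImplicit false

/-!
# The doubling lemma
-/

namespace Pool.Agent.H66.PS

open Finset Pool.Agent.H66.BES

theorem mem_clean {V ι K : Type} [DecidableEq V] (𝓕 : Finset ι) (κ : ι → K)
    (I W : ι → Finset V) (p : ι × ι) : p ∈ clean 𝓕 κ I W ↔
      (p.1 ∈ 𝓕 ∧ p.2 ∈ 𝓕) ∧ κ p.1 = κ p.2 ∧ W p.1 ∩ W p.2 ⊆ I p.1 := by
  classical
  unfold clean
  rw [mem_filter, mem_product]

/-- the Cauchy–Schwarz inequality for the fibres of `κ` -/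
theorem cs_pairs {ι K : Type} [DecidableEq ι] [DecidableEq K] (𝓕 : Finset ι) (κ : ι → K) :
    𝓕.card ^ 2 ≤ (𝓕.image κ).card *
      ((𝓕 ×ˢ 𝓕).filter fun p : ι × ι => κ p.1 = κ p.2).card := by
  have h1 : 𝓕.card = ∑ k ∈ 𝓕.image κ, (𝓕.filter fun t => κ t = k).card :=
    card_eq_sum_card_image κ 𝓕
  have h2 : ∑ k ∈ 𝓕.image κ, (𝓕.filter fun t => κ t = k).card ^ 2 ≤
      ((𝓕 ×ˢ 𝓕).filter fun p : ι × ι => κ p.1 = κ p.2).card := by
    rw [card_eq_sum_card_fiberwise (f := fun p : ι × ι => κ p.1) (t := 𝓕.image κ)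
      (fun p hp => by
        have hp' := mem_filter.1 (mem_coe.1 hp)
        exact mem_coe.2 (mem_image_of_mem κ (mem_product.1 hp'.1).1))]
    refine sum_le_sum fun k _ => ?_
    rw [sq, ← card_product]
    refine card_le_card fun p hp => ?_
    obtain ⟨h3, h4⟩ := mem_product.1 hp
    obtain ⟨h3, h3'⟩ := mem_filter.1 h3
    obtain ⟨h4, h4'⟩ := mem_filter.1 h4
    exact mem_filter.2 ⟨mem_filter.2 ⟨mem_product.2 ⟨h3, h4⟩, h3'.trans h4'.symm⟩, h3'⟩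
  calc 𝓕.card ^ 2 = (∑ k ∈ 𝓕.image κ, (𝓕.filter fun t => κ t = k).card) ^ 2 := by rw [← h1]
    _ ≤ (𝓕.image κ).card * ∑ k ∈ 𝓕.image κ, (𝓕.filter fun t => κ t = k).card ^ 2 :=
        sq_sum_le_card_mul_sum_sq
    _ ≤ _ := Nat.mul_le_mul_left _ h2

theorem t_double (hg : P_growth) (hd : S_mindeg) : P_double := by
  classical
  intro V _ _ D E e q H ι K 𝓕 κ I W S hPre hI hMult P hP
  obtain ⟨R, hR⟩ : ∃ R : ι → ι → Prop, ∀ t u, R t u ↔
      t ∈ 𝓕 ∧ u ∈ 𝓕 ∧ κ t = κ u ∧ ¬ (W t ∩ W u ⊆ I t) := ⟨_, fun _ _ => Iff.rfl⟩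
  have hsym : ∀ t u, R t u → R u t := by
    intro t u h
    rw [hR] at h ⊢
    obtain ⟨h1, h2, h3, h4⟩ := h
    refine ⟨h2, h1, h3.symm, ?_⟩
    rw [inter_comm, ← hI t h1 u h2 h3]
    exact h4
  by_cases hbig : 2 * (e + D) ^ q * 𝓕.card < ((𝓕 ×ˢ 𝓕).filter fun p => R p.1 p.2).card
  · left
    obtain ⟨F', hF', hne, hdeg⟩ := hd ι R hsym ((e + D) ^ q) 𝓕 hbig
    refine hg V D E e H ι F' I W S (fun t ht => hPre t (hF' ht)) hne ?_
    intro U hU t0 ht0 hWU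
    have h1 : ∃ t ∈ F'.filter (fun u => R t0 u), ¬ W t ⊆ U := by
      by_contra hcon
      push Not at hcon
      have h2 := hMult U (F'.filter fun u => R t0 u) ((filter_subset _ _).trans hF') hcon
      have h3 := hdeg t0 ht0
      have h4 : U.card ^ q ≤ (e + D) ^ q := Nat.pow_le_pow_left hU q
      omega
    obtain ⟨t, ht, htU⟩ := h1
    obtain ⟨htF, hRt⟩ := mem_filter.1 ht
    obtain ⟨k1, k2, k3, k4⟩ := (hR _ _).1 hRt
    have k5 : I t0 = I t := hI t0 k1 t k2 k3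
    obtain ⟨v, hv, hvI⟩ := not_subset.1 k4
    obtain ⟨hv1, hv2⟩ := mem_inter.1 hv
    refine ⟨t, htF, htU, ?_, v, hWU hv1, hv2, ?_⟩
    · rw [← k5]
      exact (hPre t0 k1).1.str.IW.trans hWU
    · rw [← k5]
      exact hvI
  · right
    have h1 : ((𝓕 ×ˢ 𝓕).filter fun p : ι × ι => κ p.1 = κ p.2).card ≤
        (clean 𝓕 κ I W).card + 2 * (e + D) ^ q * 𝓕.card := by
      have h2 : ((𝓕 ×ˢ 𝓕).filter fun p : ι × ι => κ p.1 = κ p.2) ⊆
          clean 𝓕 κ I W ∪ ((𝓕 ×ˢ 𝓕).filter fun p => R p.1 p.2) := by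
        intro p hp
        obtain ⟨h3, h4⟩ := mem_filter.1 hp
        have h5 := mem_product.1 h3
        rw [mem_union]
        by_cases h6 : W p.1 ∩ W p.2 ⊆ I p.1
        · exact Or.inl ((mem_clean 𝓕 κ I W p).2 ⟨h5, h4, h6⟩)
        · exact Or.inr (mem_filter.2 ⟨h3, (hR _ _).2 ⟨h5.1, h5.2, h4, h6⟩⟩)
      have h3 := (card_le_card h2).trans (card_union_le _ _)
      omega
    have h2 : (𝓕.image κ).card ≤ P := hP _ fun k hk => by
      obtain ⟨t, ht, rfl⟩ := mem_image.1 hk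
      exact ⟨t, ht, rfl⟩
    exact (cs_pairs 𝓕 κ).trans (Nat.mul_le_mul h2 h1)

end Pool.Agent.H66.PS
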