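import Pool.Agent.H66.PS.Defs

set_option autoImplicit false

/-!
# Gluing two states (`t_glue`, by helper967)
-/

namespace Pool.Agent.H66.PS

open Finset Pool.Agent.H66.BES

namespace GLU

section
variable {V : Type*} [DecidableEq V]

/-- the two parts of `(U, T)` -/
theorem parts {I W1 W2 U : Finset V} {S1 S2 T : Finset (Finset V)} (h : W1 ∩ W2 = I)
    (hU : U ⊆ W1 ∪ W2) (hT : T ⊆ S1 ∪ S2) :
    T.card ≤ (T ∩ S1).card + (T ∩ S2).card ∧
      U.card + (U ∩ I).card = (U ∩ W1).card + (U ∩ W2).card := by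
  constructor
  · have e : T = T ∩ S1 ∪ T ∩ S2 := by
      rw [← inter_union_distrib_left]
      exact (inter_eq_left.2 hT).symm
    calc T.card = (T ∩ S1 ∪ T ∩ S2).card := congrArg card e
      _ ≤ _ := card_union_le _ _
  · have e : U = U ∩ W1 ∪ U ∩ W2 := by
      rw [← inter_union_distrib_left]
      exact (inter_eq_left.2 hU).symm
    have e2 : (U ∩ W1) ∩ (U ∩ W2) = U ∩ I := by
      rw [← h, ← inter_inter_distrib_left]
    have u := card_union_add_card_inter (U ∩ W1) (U ∩ W2)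
    rw [← e, e2] at u
    exact u

/-- the intersection of the vertex sets -/
theorem inter_eq {D E : ℕ} {I J1 J2 : Finset V} {w1 w2 s1 s2 : V} {W1 W2 : Finset V}
    {S1 S2 : Finset (Finset V)} (G1 : State D E I J1 w1 s1 W1 S1)
    (G2 : State D E I J2 w2 s2 W2 S2) (h : W1 ∩ W2 ⊆ I) : W1 ∩ W2 = I :=
  subset_antisymm h (subset_inter G1.strI.IW G2.strI.IW)

theorem sub_part {U W : Finset V} {T S : Finset (Finset V)} (h : ∀ f ∈ S, f ⊆ W)
    (hT : ∀ f ∈ T, f ⊆ U) : ∀ f ∈ T ∩ S, f ⊆ U ∩ W := fun f hf =>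
  subset_inter (hT f (mem_inter.1 hf).1) (h f (mem_inter.1 hf).2)

theorem w2W1 {D E : ℕ} {I J2 : Finset V} {w2 s2 : V} {W1 W2 : Finset V}
    {S2 : Finset (Finset V)} (G2 : State D E I J2 w2 s2 W2 S2) (h : W1 ∩ W2 ⊆ I) : w2 ∉ W1 :=
  fun hw => G2.wI (h (mem_inter.2 ⟨hw, G2.wW⟩))

theorem s2W1 {D E : ℕ} {I J2 : Finset V} {w2 s2 : V} {W1 W2 : Finset V}
    {S2 : Finset (Finset V)} (G2 : State D E I J2 w2 s2 W2 S2) (h : W1 ∩ W2 ⊆ I) : s2 ∉ W1 :=
  fun hw => G2.sI (h (mem_inter.2 ⟨hw, G2.sW⟩))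

/-- the vertices of `J1` are not in `W2` -/
theorem J1W2 {D E : ℕ} {I J1 : Finset V} {w1 s1 : V} {W1 W2 : Finset V}
    {S1 : Finset (Finset V)} (G1 : State D E I J1 w1 s1 W1 S1) (h : W1 ∩ W2 ⊆ I) :
    ∀ v ∈ J1, v ∉ W2 := fun _ hv hv2 =>
  disjoint_left.1 G1.dIJ (h (mem_inter.2 ⟨G1.strJ.IW hv, hv2⟩)) hv

/-- the edges of the second copy are not edges of the first copy -/
theorem dS {D E : ℕ} {I J1 J2 : Finset V} {w1 w2 s1 s2 : V} {W1 W2 : Finset V}
    {S1 S2 : Finset (Finset V)} (G1 : State D E I J1 w1 s1 W1 S1)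
    (G2 : State D E I J2 w2 s2 W2 S2) (h : W1 ∩ W2 ⊆ I) : Disjoint S1 S2 :=
  disjoint_left.2 fun f hf hf' =>
    G1.strI.st0 f hf ((subset_inter (G1.sub f hf) (G2.sub f hf')).trans h)

/-- `U ∩ (insert w I)` -/
theorem card_ins (U I : Finset V) (w : V) (hw : w ∉ I) :
    (U ∩ insert w I).card = (U ∩ I).card + (if w ∈ U then 1 else 0) := by
  by_cases h : w ∈ U
  · rw [if_pos h, inter_insert_of_mem h, card_insert_of_notMem]
    exact fun h' => hw (mem_inter.1 h').2
  · rw [if_neg h, inter_insert_of_notMem h, add_zero]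

/-- restricting to `W` does not change the intersection with a subset of `W` -/
theorem inter_W {U W X : Finset V} (h : X ⊆ W) : (U ∩ W) ∩ X = U ∩ X := by
  rw [inter_assoc, inter_eq_right.2 h]

/-- the condition `Strong` for `insert w2 J1` -/
theorem strong {D E : ℕ} {I J1 J2 : Finset V} {w1 w2 s1 s2 : V} {W1 W2 : Finset V}
    {S1 S2 : Finset (Finset V)} (G1 : State D E I J1 w1 s1 W1 S1)
    (G2 : State D E I J2 w2 s2 W2 S2) (h : W1 ∩ W2 ⊆ I) :
    Strong (D + 1) (insert w2 J1) (W1 ∪ W2) (S1 ∪ S2) := by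
  have hw2 : w2 ∉ W1 := w2W1 G2 h
  have hw2J : w2 ∉ J1 := fun h' => hw2 (G1.strJ.IW h')
  have hJ := J1W2 G1 h
  refine ⟨?_, ?_, ?_, ?_⟩
  · rw [card_insert_of_notMem hw2J, G1.strJ.cI]
  · exact insert_subset (mem_union_right _ G2.wW) (G1.strJ.IW.trans subset_union_left)
  · intro f hf hfI
    rcases mem_union.1 hf with hf | hf
    · refine G1.strJ.st0 f hf fun v hv => ?_
      rcases mem_insert.1 (hfI hv) with h1 | h1
      · exact absurd (G1.sub f hf hv) (h1 ▸ hw2)
      · exact h1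
    · have h1 : f ⊆ {w2} := by
        intro v hv
        rcases mem_insert.1 (hfI hv) with h1 | h1
        · exact mem_singleton.2 h1
        · exact absurd (G2.sub f hf hv) (hJ v h1)
      have h2 := G2.g1 {w2} (singleton_subset_iff.2 G2.wW) {f} (singleton_subset_iff.2 hf)
        (fun g hg => by rw [mem_singleton.1 hg]; exact h1) (by rw [card_singleton])
      rw [card_singleton, card_singleton] at h2
      omega
  · intro U hU T hT hTU hIU hne
    have hw2U : w2 ∈ U := hIU (mem_insert_self _ _)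
    have hJU : J1 ⊆ U := (subset_insert _ _).trans hIU
    obtain ⟨p1, p2⟩ := parts (inter_eq G1 G2 h) hU hT
    have a2 := G2.indI (U ∩ W2) inter_subset_right (T ∩ S2) inter_subset_right
      (sub_part G2.sub hTU)
    rw [inter_W (insert_subset G2.wW G2.strI.IW), card_ins U I w2 G2.wI, if_pos hw2U] at a2
    by_cases hU1 : U ∩ W1 = J1
    · have hs : U ∩ I = ∅ := by
        rw [eq_empty_iff_forall_notMem]
        intro v hv
        have hv' := mem_inter.1 hv
        have h1 : v ∈ J1 := by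
          rw [← hU1]
          exact mem_inter.2 ⟨hv'.1, G1.strI.IW hv'.2⟩
        exact disjoint_left.1 G1.dIJ hv'.2 h1
      have hT1 : T ∩ S1 = ∅ := by
        rw [eq_empty_iff_forall_notMem]
        intro f hf
        have h1 := sub_part G1.sub hTU f hf
        rw [hU1] at h1
        exact G1.strJ.st0 f (mem_inter.1 hf).2 h1
      have hc := G1.strJ.cI
      have h2 : 2 ≤ (U ∩ W2).card := by
        by_contra hlt
        have h3 : (U ∩ W2).card ≤ 1 := by omega
        rw [card_le_one] at h3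
        apply hne
        apply subset_antisymm _ hIU
        intro v hv
        rcases mem_union.1 (hU hv) with h4 | h4
        · rw [mem_insert]
          right
          rw [← hU1]
          exact mem_inter.2 ⟨hv, h4⟩
        · rw [mem_insert]
          left
          exact h3 v (mem_inter.2 ⟨hv, h4⟩) w2 (mem_inter.2 ⟨hw2U, G2.wW⟩)
      have h3 := G2.g2 (U ∩ W2) inter_subset_right (T ∩ S2) inter_subset_right
        (sub_part G2.sub hTU) h2
      rw [hs, hU1, card_empty] at p2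
      rw [hT1, card_empty] at p1
      omega
    · have a1 := G1.strJ.st (U ∩ W1) inter_subset_right (T ∩ S1) inter_subset_right
        (sub_part G1.sub hTU) (subset_inter hJU G1.strJ.IW) hU1
      omega

/-- the condition `indI` for `insert s1 (insert w2 J1)` -/
theorem ind {D E : ℕ} {I J1 J2 : Finset V} {w1 w2 s1 s2 : V} {W1 W2 : Finset V}
    {S1 S2 : Finset (Finset V)} (G1 : State D E I J1 w1 s1 W1 S1)
    (G2 : State D E I J2 w2 s2 W2 S2) (h : W1 ∩ W2 ⊆ I) :
    ∀ U ⊆ W1 ∪ W2, ∀ T ⊆ S1 ∪ S2, (∀ f ∈ T, f ⊆ U) →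
      T.card + (U ∩ insert s1 (insert w2 J1)).card ≤ U.card := by
  intro U hU T hT hTU
  have hw2 : w2 ∉ W1 := w2W1 G2 h
  have hw2J : w2 ∉ J1 := fun h' => hw2 (G1.strJ.IW h')
  obtain ⟨p1, p2⟩ := parts (inter_eq G1 G2 h) hU hT
  have a2 := G2.indI (U ∩ W2) inter_subset_right (T ∩ S2) inter_subset_right
    (sub_part G2.sub hTU)
  rw [inter_W (insert_subset G2.wW G2.strI.IW), card_ins U I w2 G2.wI] at a2
  have a1 := G1.indJ (U ∩ W1) inter_subset_right (T ∩ S1) inter_subset_right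
    (sub_part G1.sub hTU)
  rw [inter_W (insert_subset G1.sW G1.strJ.IW)] at a1
  have hw2' : w2 ∉ insert s1 J1 := by
    rw [mem_insert, not_or]
    exact ⟨fun h' => hw2 (h' ▸ G1.sW), hw2J⟩
  rw [Finset.insert_comm, card_ins U (insert s1 J1) w2 hw2']
  omega

/-- the chain starting with `insert s1 (insert w2 J1)` -/
theorem chain {D E : ℕ} {I J1 J2 : Finset V} {w1 w2 s1 s2 : V} {W1 W2 : Finset V}
    {S1 S2 : Finset (Finset V)} (G1 : State D E I J1 w1 s1 W1 S1)
    (G2 : State D E I J2 w2 s2 W2 S2) (h : W1 ∩ W2 ⊆ I) :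
    Chn (D + 1) (2 * E) (insert s1 (insert w2 J1)) (S1 ∪ S2) := by
  obtain ⟨c1, card1, mono1, top1, bd1⟩ := G1.chJ
  obtain ⟨c2, card2, mono2, top2, bd2⟩ := G2.chI
  have d := dS G1 G2 h
  have cS1 := G1.cS
  have cI := G1.strI.cI
  have cW1 := G1.cW
  have le1 : ∀ i ≤ E, c1 i ⊆ S1 := fun i hi => by rw [← top1]; exact mono1 i E hi le_rfl
  have le2 : ∀ i ≤ E, c2 i ⊆ S2 := fun i hi => by rw [← top2]; exact mono2 i E hi le_rfl
  obtain ⟨c, hc⟩ : ∃ c : ℕ → Finset (Finset V), ∀ i, c i = if i ≤ E then c1 i else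
    S1 ∪ c2 (i - E) := ⟨_, fun _ => rfl⟩
  have hc1 : ∀ i, i ≤ E → c i = c1 i := fun i hi => by rw [hc, if_pos hi]
  have hc2 : ∀ i, ¬ i ≤ E → c i = S1 ∪ c2 (i - E) := fun i hi => by rw [hc, if_neg hi]
  refine ⟨c, ?_, ?_, ?_, ?_⟩
  · intro i hi
    by_cases h' : i ≤ E
    · rw [hc1 i h']
      exact card1 i h'
    · rw [hc2 i h', card_union_of_disjoint (d.mono_right (le2 _ (by omega))), cS1,
        card2 _ (by omega)]
      omega
  · intro i j hij hj
    by_cases hi : i ≤ E
    · rw [hc1 i hi]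
      by_cases hj' : j ≤ E
      · rw [hc1 j hj']
        exact mono1 i j hij hj'
      · rw [hc2 j hj']
        exact (le1 i hi).trans subset_union_left
    · rw [hc2 i hi, hc2 j (by omega)]
      exact union_subset_union_right (mono2 _ _ (by omega) (by omega))
  · by_cases hE : 2 * E ≤ E
    · have hE0 : E = 0 := by omega
      have e1 : S1 = ∅ := by rw [← card_eq_zero, G1.cS, hE0]
      have e2 : S2 = ∅ := by rw [← card_eq_zero, G2.cS, hE0]
      rw [hc1 _ hE, show 2 * E = E by omega, top1, e2, union_empty]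
    · rw [hc2 _ hE, show 2 * E - E = E by omega, top2]
  · intro i hi
    by_cases h' : i ≤ E
    · rw [hc1 i h', Finset.insert_comm, union_insert]
      have h2 := card_insert_le w2 ((c1 i).biUnion id ∪ insert s1 J1)
      have h3 := bd1 i h'
      omega
    · obtain ⟨j, hj⟩ : ∃ j, j = i - E := ⟨_, rfl⟩
      rw [hc2 i h', ← hj]
      have hjE : j ≤ E := by omega
      obtain ⟨X, hX⟩ : ∃ X, X = (c2 j).biUnion id ∪ insert w2 I := ⟨_, rfl⟩
      have h2 := bd2 j hjE
      rw [← hX] at h2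
      have h3 : (S1 ∪ c2 j).biUnion id ∪ insert s1 (insert w2 J1) ⊆ W1 ∪ X := by
        intro v hv
        rw [mem_union, hX]
        rcases mem_union.1 hv with hv | hv
        · obtain ⟨f, hf, hvf⟩ := mem_biUnion.1 hv
          rcases mem_union.1 hf with hf | hf
          · exact Or.inl (G1.sub f hf hvf)
          · exact Or.inr (mem_union_left _ (mem_biUnion.2 ⟨f, hf, hvf⟩))
        · rcases mem_insert.1 hv with hv | hv
          · exact Or.inl (hv ▸ G1.sW)
          · rcases mem_insert.1 hv with hv | hv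
            · exact Or.inr (mem_union_right _ (mem_insert.2 (Or.inl hv)))
            · exact Or.inl (G1.strJ.IW hv)
      have h4 : I ⊆ W1 ∩ X := by
        rw [hX]
        exact subset_inter G1.strI.IW ((subset_insert _ _).trans subset_union_right)
      have h5 := card_le_card h3
      have h6 := card_le_card h4
      have h7 := card_union_add_card_inter W1 X
      omega

end

end GLU

open GLU

theorem t_glue : P_glue := by
  intro V _ D E I J1 J2 w1 w2 s1 s2 W1 W2 S1 S2 _ G1 G2 h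
  have h' : W2 ∩ W1 ⊆ I := by rw [inter_comm]; exact h
  have hw2 : w2 ∉ W1 := w2W1 G2 h
  have hw1 : w1 ∉ W2 := w2W1 G1 h'
  have hs2 : s2 ∉ W1 := s2W1 G2 h
  have hs1 : s1 ∉ W2 := s2W1 G1 h'
  have hJ1 := J1W2 G1 h
  have hJ2 := J1W2 G2 h'
  have cI := G1.strI.cI
  have cW1 := G1.cW
  have cW2 := G2.cW
  have key : ∀ U ⊆ W1 ∪ W2, ∀ T ⊆ S1 ∪ S2, (∀ f ∈ T, f ⊆ U) →
      (1 ≤ U.card → T.card + 1 ≤ U.card) ∧ (2 ≤ U.card → T.card + 2 ≤ U.card) := by
    intro U hU T hT hTU
    obtain ⟨p1, p2⟩ := parts (inter_eq G1 G2 h) hU hT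
    have b1 := G1.indI (U ∩ W1) inter_subset_right (T ∩ S1) inter_subset_right
      (sub_part G1.sub hTU)
    rw [inter_W (insert_subset G1.wW G1.strI.IW), card_ins U I w1 G1.wI] at b1
    have b2 := G2.indI (U ∩ W2) inter_subset_right (T ∩ S2) inter_subset_right
      (sub_part G2.sub hTU)
    rw [inter_W (insert_subset G2.wW G2.strI.IW), card_ins U I w2 G2.wI] at b2
    have x1 := G1.g1 (U ∩ W1) inter_subset_right (T ∩ S1) inter_subset_right
      (sub_part G1.sub hTU)
    have x2 := G2.g1 (U ∩ W2) inter_subset_right (T ∩ S2) inter_subset_right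
      (sub_part G2.sub hTU)
    have y1 := G1.g2 (U ∩ W1) inter_subset_right (T ∩ S1) inter_subset_right
      (sub_part G1.sub hTU)
    have y2 := G2.g2 (U ∩ W2) inter_subset_right (T ∩ S2) inter_subset_right
      (sub_part G2.sub hTU)
    constructor
    · intro hc
      by_cases h1 : 1 ≤ (U ∩ W1).card
      · have := x1 h1
        omega
      · have := x2 (by omega)
        omega
    · intro hc
      by_cases h1 : 2 ≤ (U ∩ W1).card
      · have := y1 h1
        omega
      · by_cases h2 : 2 ≤ (U ∩ W2).card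
        · have := y2 h2
          omega
        · have := x1 (by omega)
          have := x2 (by omega)
          omega
  refine ⟨?_, ?_, ?_, strong G1 G2 h, ?_, mem_union_left _ G1.sW, mem_union_right _ G2.sW, ?_, ?_,
    ?_, ?_, ?_, ?_, ?_, ?_, ind G1 G2 h, ?_, chain G1 G2 h, ?_⟩
  · intro f hf
    rcases mem_union.1 hf with hf | hf
    · exact (G1.sub f hf).trans subset_union_left
    · exact (G2.sub f hf).trans subset_union_right
  · rw [card_union_of_disjoint (dS G1 G2 h), G1.cS, G2.cS]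
    omega
  · have e := card_union_add_card_inter W1 W2
    rw [inter_eq G1 G2 h] at e
    omega
  · rw [union_comm W1 W2, union_comm S1 S2]
    exact strong G2 G1 h'
  · rw [disjoint_left]
    intro v hv hv'
    rcases mem_insert.1 hv with h1 | h1
    · rcases mem_insert.1 hv' with h2 | h2
      · exact hw2 (h1 ▸ h2 ▸ G1.wW)
      · exact G2.wJ (h1 ▸ h2)
    · rcases mem_insert.1 hv' with h2 | h2
      · exact G1.wJ (h2 ▸ h1)
      · exact hJ1 v h1 (G2.strJ.IW h2)
  · rw [mem_insert, not_or]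
    exact ⟨fun h1 => hw2 (h1 ▸ G1.sW), G1.sJ⟩
  · rw [mem_insert, not_or]
    exact ⟨G1.ws.symm, fun h1 => hs1 (G2.strJ.IW h1)⟩
  · rw [mem_insert, not_or]
    exact ⟨G2.ws.symm, fun h1 => hs2 (G1.strJ.IW h1)⟩
  · rw [mem_insert, not_or]
    exact ⟨fun h1 => hs2 (h1 ▸ G1.wW), G2.sJ⟩
  · exact fun h1 => hs2 (h1 ▸ G1.sW)
  · exact fun U hU T hT hf => (key U hU T hT hf).1
  · exact fun U hU T hT hf => (key U hU T hT hf).2
  · rw [union_comm W1 W2, union_comm S1 S2]
    exact ind G2 G1 h'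
  · rw [union_comm S1 S2]
    exact chain G2 G1 h'

end Pool.Agent.H66.PS
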