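import Pool.Agent.H66.PS.Defs

set_option autoImplicit false

/-!
# The growth lemma (task GRO)
-/

namespace Pool.Agent.H66.PS

open Finset Pool.Agent.H66.BES

/-- an increasing chain hits every intermediate number of edges -/
theorem gro_chain {E : Type*} [DecidableEq E] (N e : ℕ) (T : Finset E) (c : ℕ → Finset E)
    (hc : ∀ i ≤ N, (c i).card = i) (hmono : ∀ i j, i ≤ j → j ≤ N → c i ⊆ c j)
    (h0 : T.card < e) (h1 : e ≤ (T ∪ c N).card) : ∃ i ≤ N, (T ∪ c i).card = e := by
  classical
  have hex : ∃ i, i ≤ N ∧ e ≤ (T ∪ c i).card := ⟨N, le_rfl, h1⟩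
  obtain ⟨hi1, hi2⟩ := Nat.find_spec hex
  set i := Nat.find hex with hi
  have hne : i ≠ 0 := by
    intro h
    have h2 : c i = ∅ := by
      rw [← Finset.card_eq_zero, hc i hi1, h]
    rw [h2, Finset.union_empty] at hi2
    omega
  obtain ⟨j, hj⟩ := Nat.exists_eq_succ_of_ne_zero hne
  have hj1 : j < i := by omega
  have hjN : j ≤ N := by omega
  have h3 : ¬ (j ≤ N ∧ e ≤ (T ∪ c j).card) := Nat.find_min hex hj1
  have h4 : (T ∪ c j).card < e := by
    by_contra h
    exact h3 ⟨hjN, not_lt.1 h⟩
  have h5 : c j ⊆ c i := hmono j i hj1.le hi1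
  have h6 : (c i \ c j).card = 1 := by
    rw [Finset.card_sdiff_of_subset h5, hc i hi1, hc j hjN]
    omega
  have h7 : T ∪ c i ⊆ (T ∪ c j) ∪ (c i \ c j) := by
    intro x hx
    rw [mem_union] at hx
    rw [mem_union, mem_union, mem_sdiff]
    by_cases hxj : x ∈ c j
    · exact Or.inl (Or.inr hxj)
    · rcases hx with hx | hx
      · exact Or.inl (Or.inl hx)
      · exact Or.inr ⟨hx, hxj⟩
  have h8 : (T ∪ c i).card ≤ (T ∪ c j).card + 1 := by
    calc (T ∪ c i).card ≤ ((T ∪ c j) ∪ (c i \ c j)).card := Finset.card_le_card h7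
      _ ≤ (T ∪ c j).card + (c i \ c j).card := Finset.card_union_le _ _
      _ = (T ∪ c j).card + 1 := by rw [h6]
  exact ⟨i, hi1, by omega⟩

theorem t_growth : P_growth := by
  classical
  intro V _ _ D E e H ι 𝓕 I W S hF hG hatt
  by_cases heE : e ≤ E
  · -- few edges: use a chain
    obtain ⟨t0, ht0⟩ := hG
    obtain ⟨hpre, hSH⟩ := hF t0 ht0
    obtain ⟨c, hc1, hc2, hc3, hc4⟩ := hpre.ch
    refine ⟨c e, ?_, hc1 e heE, ?_⟩
    · refine (hc2 e E heE le_rfl).trans ?_
      rw [hc3]
      exact hSH
    · have h1 := hc4 e heE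
      have h2 : ((c e).biUnion id).card ≤ ((c e).biUnion id ∪ I t0).card :=
        Finset.card_le_card Finset.subset_union_left
      omega
  · push Not at heE
    -- the pairs
    set P : Finset (Finset V × Finset (Finset V)) := univ.filter (fun q =>
      q.2 ⊆ H ∧ (∀ f ∈ q.2, f ⊆ q.1) ∧ q.1.card ≤ q.2.card + D ∧
        q.2.card < e ∧ ∃ t0 ∈ 𝓕, W t0 ⊆ q.1) with hP
    have hPne : P.Nonempty := by
      obtain ⟨t0, ht0⟩ := hG
      obtain ⟨hpre, hSH⟩ := hF t0 ht0
      refine ⟨(W t0, S t0), ?_⟩
      rw [hP, mem_filter]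
      refine ⟨mem_univ _, hSH, hpre.sub, ?_, ?_, t0, ht0, subset_rfl⟩
      · have h1 := hpre.cW
        have h2 := hpre.cS
        show (W t0).card ≤ (S t0).card + D
        omega
      · have h2 := hpre.cS
        show (S t0).card < e
        omega
    obtain ⟨⟨U, T⟩, hUT, hmax⟩ := Finset.exists_max_image P (fun q => q.1.card) hPne
    rw [hP, mem_filter] at hUT
    obtain ⟨-, hTH, hTU, hcard, hTe, t0, ht0, hWU⟩ := hUT
    dsimp only at hTH hTU hcard hTe hWU
    have hUe : U.card ≤ e + D := by omega
    obtain ⟨t, htF, hWt, hIU, v, hvU, hvW, hvI⟩ := hatt U hUe t0 ht0 hWU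
    obtain ⟨hpre, hSH⟩ := hF t htF
    have hstr := hpre.str
    have hIW := hstr.IW
    have hr2 := hstr.st (U ∩ W t) inter_subset_right (T ∩ S t) inter_subset_right
      (fun f hf => subset_inter (hTU f (mem_inter.1 hf).1) (hpre.sub f (mem_inter.1 hf).2))
      (subset_inter hIU hIW) (fun h => hvI (by rw [← h]; exact mem_inter.2 ⟨hvU, hvW⟩))
    have hU1 := Finset.card_union_add_card_inter U (W t)
    have hT1 := Finset.card_union_add_card_inter T (S t)
    have hcW := hpre.cW
    have hcS := hpre.cS
    have hU2 : (U ∪ W t).card ≤ (T ∪ S t).card + D := by omega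
    have hU3 : U.card < (U ∪ W t).card := by
      refine Finset.card_lt_card ?_
      rw [Finset.ssubset_iff_subset_ne]
      refine ⟨subset_union_left, fun h => hWt ?_⟩
      rw [h]
      exact subset_union_right
    by_cases hTe' : (T ∪ S t).card < e
    · exfalso
      have hmem : (U ∪ W t, T ∪ S t) ∈ P := by
        rw [hP, mem_filter]
        refine ⟨mem_univ _, union_subset hTH hSH, ?_, hU2, hTe',
          t0, ht0, hWU.trans subset_union_left⟩
        intro f hf
        rcases mem_union.1 hf with h | h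
        · exact (hTU f h).trans subset_union_left
        · exact (hpre.sub f h).trans subset_union_right
      have h2 := hmax _ hmem
      dsimp only at h2
      omega
    · push Not at hTe'
      obtain ⟨c, hc1, hc2, hc3, hc4⟩ := hpre.ch
      obtain ⟨i, hi, hcardi⟩ := gro_chain E e T c hc1 hc2 hTe (by rw [hc3]; exact hTe')
      have hciS : c i ⊆ S t := by
        rw [← hc3]
        exact hc2 i E hi le_rfl
      set Ui : Finset V := (c i).biUnion id ∪ I t with hUi
      have hUicard : Ui.card ≤ i + D := hc4 i hi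
      have hUiW : Ui ⊆ W t := by
        rw [hUi]
        refine union_subset ?_ hIW
        intro u hu
        rw [mem_biUnion] at hu
        obtain ⟨f, hf, hu⟩ := hu
        exact hpre.sub f (hciS hf) hu
      have hIUi : I t ⊆ Ui := by
        rw [hUi]
        exact subset_union_right
      have hfUi : ∀ f ∈ c i, f ⊆ Ui := by
        intro f hf u hu
        rw [hUi, mem_union, mem_biUnion]
        exact Or.inl ⟨f, hf, hu⟩
      have hfin : ∀ f ∈ T ∩ c i, f ⊆ U ∩ Ui :=
        fun f hf => subset_inter (hTU f (mem_inter.1 hf).1) (hfUi f (mem_inter.1 hf).2)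
      have hr1 : (T ∩ c i).card + D ≤ (U ∩ Ui).card + 1 := by
        by_cases h : U ∩ Ui = I t
        · have h0 : T ∩ c i = ∅ := by
            rw [Finset.eq_empty_iff_forall_notMem]
            intro f hf
            have h1 := hfin f hf
            rw [h] at h1
            exact hstr.st0 f (hciS (mem_inter.1 hf).2) h1
          have hcI := hstr.cI
          rw [h0, h, card_empty]
          omega
        · have h1 := hstr.st (U ∩ Ui) (inter_subset_right.trans hUiW) (T ∩ c i)
            (inter_subset_right.trans hciS) hfin (subset_inter hIU hIUi) h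
          omega
      have hU4 := Finset.card_union_add_card_inter U Ui
      have hT4 := Finset.card_union_add_card_inter T (c i)
      have hci := hc1 i hi
      refine ⟨T ∪ c i, union_subset hTH (hciS.trans hSH), hcardi, ?_⟩
      have hsub : (T ∪ c i).biUnion id ⊆ U ∪ Ui := by
        intro u hu
        rw [mem_biUnion] at hu
        obtain ⟨f, hf, hu⟩ := hu
        rcases mem_union.1 hf with h | h
        · exact mem_union_left _ (hTU f h hu)
        · exact mem_union_right _ (hfUi f h hu)
      have hle := Finset.card_le_card hsub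
      omega

end Pool.Agent.H66.PS
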