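import Pool.Agent.H66.PS.Defs
import Pool.Agent.H66.BES.Main

set_option autoImplicit false

namespace Pool.Agent.H66.PS

open Finset SimpleGraph TripartiteFromTriangles Pool.Agent.H66.BES

lemma conf_of_pre {V : Type*} [DecidableEq V] {D E : ℕ} {I W : Finset V}
    {S : Finset (Finset V)} (h : Pre D E I W S) {H : Finset (Finset V)} (hS : S ⊆ H) {e : ℕ}
    (he : e ≤ E) : Conf H e D := by
  obtain ⟨c, h1, h2, h3, h4⟩ := h.ch
  refine ⟨c e, ?_, h1 e he, ?_⟩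
  · have h5 := h2 e E he le_rfl
    rw [h3] at h5
    exact h5.trans hS
  · exact (card_le_card subset_union_left).trans (h4 e he)

lemma State.pre {V : Type*} [DecidableEq V] {D E : ℕ} {I J : Finset V} {w s : V} {W : Finset V}
    {S : Finset (Finset V)} (h : State D E I J w s W S) : Pre D E I W S := by
  refine ⟨h.sub, h.cS, h.cW, h.strI, ?_⟩
  obtain ⟨c, h1, h2, h3, h4⟩ := h.chI
  refine ⟨c, h1, h2, h3, fun i hi => (card_le_card ?_).trans (h4 i hi)⟩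
  exact union_subset_union_right (subset_insert _ _)

lemma arith (a c P M : ℕ) (h : a ^ 2 ≤ P * (c + 2 * M * a)) (h2 : 4 * M * P ≤ a) :
    a ^ 2 ≤ 2 * P * c := by
  have h3 : 4 * M * P * a ≤ a * a := Nat.mul_le_mul_right a h2
  nlinarith

theorem step (hd : P_double) (hg : P_glue) {n : ℕ} (H : Finset (Finset (Fin n))) (D E q e : ℕ)
    (hE : 1 ≤ E) (hD : 1 ≤ D) (a : ℝ) (ha : 4 * ((e : ℝ) + D) ^ q * (n : ℝ) ^ (D - 1) ≤ a)
    (hF : StateFam H D E q a) :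
    Conf H e (D + 1) ∨ StateFam H (D + 1) (2 * E) (2 * q) (a ^ 2 / (2 * (n : ℝ) ^ (D - 1))) := by
  classical
  obtain ⟨ι, 𝓕, I, J, w, s, W, S, h1, h2, h3⟩ := hF
  have hpre : ∀ t ∈ 𝓕, Pre D E (I t) (W t) (S t) ∧ S t ⊆ H := fun t ht =>
    ⟨(h1 t ht).1.pre, (h1 t ht).2⟩
  have hkey : ∀ 𝓖 : Finset (Finset (Fin n)), (∀ k ∈ 𝓖, ∃ t ∈ 𝓕, I t = k) →
      𝓖.card ≤ n ^ (D - 1) := by
    intro 𝓖 h𝓖
    have h4 : 𝓖 ⊆ powersetCard (D - 1) univ := by
      intro k hk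
      obtain ⟨t, ht, rfl⟩ := h𝓖 k hk
      rw [mem_powersetCard]
      have := (h1 t ht).1.strI.cI
      exact ⟨subset_univ _, by omega⟩
    refine (card_le_card h4).trans ?_
    rw [card_powersetCard, card_univ, Fintype.card_fin]
    exact Nat.choose_le_pow n (D - 1)
  rcases hd (Fin n) D E e q H ι (Finset (Fin n)) 𝓕 I I W S hpre (fun _ _ _ _ h => h) h2
    (n ^ (D - 1)) hkey with h | h
  · exact Or.inl h
  right
  have h5 : 4 * (e + D) ^ q * n ^ (D - 1) ≤ 𝓕.card := by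
    have : ((4 * (e + D) ^ q * n ^ (D - 1) : ℕ) : ℝ) ≤ 𝓕.card := by
      push_cast
      exact ha.trans h3
    exact_mod_cast this
  have h6 := arith _ _ _ _ h h5
  refine ⟨ι × ι, clean 𝓕 I I W, fun p => insert (w p.2) (J p.1), fun p => insert (w p.1) (J p.2),
    fun p => s p.1, fun p => s p.2, fun p => W p.1 ∪ W p.2, fun p => S p.1 ∪ S p.2, ?_, ?_, ?_⟩
  · intro p hp
    simp only [clean, mem_filter, mem_product] at hp
    obtain ⟨⟨hp1, hp2⟩, hI, hW⟩ := hp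
    obtain ⟨g1, g2⟩ := h1 _ hp1
    obtain ⟨g3, g4⟩ := h1 _ hp2
    rw [← hI] at g3
    exact ⟨hg (Fin n) D E (I p.1) (J p.1) (J p.2) (w p.1) (w p.2) (s p.1) (s p.2) (W p.1) (W p.2)
      (S p.1) (S p.2) hE g1 g3 hW, union_subset g2 g4⟩
  · intro U 𝓖 h𝓖 hU
    have h7 : 𝓖 ⊆ (𝓕.filter fun t => W t ⊆ U) ×ˢ (𝓕.filter fun t => W t ⊆ U) := by
      intro p hp
      have h8 := h𝓖 hp
      simp only [clean, mem_filter, mem_product] at h8
      have h9 := hU p hp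
      exact mem_product.2 ⟨mem_filter.2 ⟨h8.1.1, subset_union_left.trans h9⟩,
        mem_filter.2 ⟨h8.1.2, subset_union_right.trans h9⟩⟩
    refine (card_le_card h7).trans ?_
    rw [card_product]
    have h8 := h2 U (𝓕.filter fun t => W t ⊆ U) (filter_subset _ _) fun t ht => (mem_filter.1 ht).2
    calc (𝓕.filter fun t => W t ⊆ U).card * (𝓕.filter fun t => W t ⊆ U).card
        ≤ U.card ^ q * U.card ^ q := Nat.mul_le_mul h8 h8
      _ = U.card ^ (2 * q) := by rw [← pow_add]; congr 1; omega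
  · have h7 : ((𝓕.card : ℝ)) ^ 2 ≤ 2 * (n : ℝ) ^ (D - 1) * ((clean 𝓕 I I W).card : ℝ) := by
      exact_mod_cast h6
    have ha0 : 0 ≤ a := le_trans (by positivity) ha
    have h8 : a ^ 2 ≤ (𝓕.card : ℝ) ^ 2 := pow_le_pow_left₀ ha0 h3 2
    rcases Nat.eq_zero_or_pos (n ^ (D - 1)) with h0 | h0
    · have h9 : (n : ℝ) ^ (D - 1) = 0 := by exact_mod_cast h0
      rw [h9]
      simp
    · have h9 : 0 < (n : ℝ) ^ (D - 1) := by exact_mod_cast h0
      rw [div_le_iff₀ (by positivity)]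
      linarith

/-- the first doubling: two edges with a common vertex -/
theorem base1 (hd : P_double) (hp : P_pre) (n e : ℕ) (G : Finset (Fin n × Fin n × Fin n))
    (hne : ∀ t ∈ G, t.1 ≠ t.2.1 ∧ t.1 ≠ t.2.2 ∧ t.2.1 ≠ t.2.2)
    (hG : 4 * (e + 2) ^ 3 * n ≤ G.card) :
    Conf (G.image fun t => ({t.1, t.2.1, t.2.2} : Finset (Fin n))) e 3 ∨
    G.card ^ 2 ≤ 2 * n * (clean G (fun t => t.1) (fun t => {t.1})
      (fun t => ({t.1, t.2.1, t.2.2} : Finset (Fin n)))).card := by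
  classical
  have h1 := hd (Fin n) 2 1 e 3 (G.image fun t => ({t.1, t.2.1, t.2.2} : Finset (Fin n)))
    (Fin n × Fin n × Fin n) (Fin n) G (fun t => t.1) (fun t => {t.1})
    (fun t => ({t.1, t.2.1, t.2.2} : Finset (Fin n))) (fun t => {{t.1, t.2.1, t.2.2}}) ?_ ?_ ?_ n ?_
  · rcases h1 with h | h
    · exact Or.inl h
    · exact Or.inr (arith _ _ _ _ h hG)
  · intro t ht
    obtain ⟨g1, g2, g3⟩ := hne t ht
    refine ⟨(hp (Fin n)).1 t.1 t.2.1 t.2.2 g1 g2 g3, ?_⟩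
    rw [singleton_subset_iff]
    exact mem_image_of_mem _ ht
  · intro t _ u _ h
    have h' : t.1 = u.1 := h
    show ({t.1} : Finset (Fin n)) = {u.1}
    rw [h']
  · intro U 𝓖 _ hU
    have h2 : 𝓖 ⊆ U ×ˢ U ×ˢ U := by
      intro t ht
      have h3 := hU t ht
      simp only [insert_subset_iff, singleton_subset_iff] at h3
      exact mem_product.2 ⟨h3.1, mem_product.2 ⟨h3.2.1, h3.2.2⟩⟩
    refine (card_le_card h2).trans (le_of_eq ?_)
    rw [card_product, card_product]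
    ring
  · intro 𝓖 _
    refine (card_le_univ _).trans ?_
    rw [Fintype.card_fin]

/-- the members of the first clean family -/
lemma mem_clean1 {n : ℕ} {G : Finset (Fin n × Fin n × Fin n)}
    (hne : ∀ t ∈ G, t.1 ≠ t.2.1 ∧ t.1 ≠ t.2.2 ∧ t.2.1 ≠ t.2.2)
    {p : (Fin n × Fin n × Fin n) × (Fin n × Fin n × Fin n)}
    (hp : p ∈ clean G (fun t => t.1) (fun t => {t.1})
      (fun t => ({t.1, t.2.1, t.2.2} : Finset (Fin n)))) :
    p.1 ∈ G ∧ p.2 ∈ G ∧ p.1.1 = p.2.1 ∧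
      [p.1.1, p.1.2.1, p.1.2.2, p.2.2.1, p.2.2.2].Nodup := by
  classical
  simp only [clean, mem_filter, mem_product] at hp
  obtain ⟨⟨h1, h2⟩, h3, h4⟩ := hp
  refine ⟨h1, h2, h3, ?_⟩
  obtain ⟨a1, a2, a3⟩ := hne _ h1
  obtain ⟨b1, b2, b3⟩ := hne _ h2
  have key : ∀ v, (v = p.1.1 ∨ v = p.1.2.1 ∨ v = p.1.2.2) →
      (v = p.2.1 ∨ v = p.2.2.1 ∨ v = p.2.2.2) → v = p.1.1 := by
    intro v hv1 hv2
    have h5 := @h4 v (mem_inter.2 ⟨by simpa using hv1, by simpa using hv2⟩)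
    simpa using h5
  have c1 : p.1.2.1 ≠ p.2.2.1 := fun h => a1 (key p.1.2.1 (by simp) (by simp [h])).symm
  have c2 : p.1.2.1 ≠ p.2.2.2 := fun h => a1 (key p.1.2.1 (by simp) (by simp [h])).symm
  have c3 : p.1.2.2 ≠ p.2.2.1 := fun h => a2 (key p.1.2.2 (by simp) (by simp [h])).symm
  have c4 : p.1.2.2 ≠ p.2.2.2 := fun h => a2 (key p.1.2.2 (by simp) (by simp [h])).symm
  rw [← h3] at b1 b2
  simp only [List.nodup_cons, List.mem_cons, List.not_mem_nil, or_false, not_or,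
    List.nodup_nil, and_true, not_false_eq_true]
  exact ⟨⟨a1, a2, b1, b2⟩, ⟨a3, c1, c2⟩, ⟨c3, c4⟩, b3⟩

/-- the second doubling: the four-cycle -/
theorem base2 (hd : P_double) (hp : P_pre) (hf : P_four) (n e : ℕ)
    (G : Finset (Fin n × Fin n × Fin n))
    (hne : ∀ t ∈ G, t.1 ≠ t.2.1 ∧ t.1 ≠ t.2.2 ∧ t.2.1 ≠ t.2.2) (a : ℕ)
    (ha : a ≤ (clean G (fun t => t.1) (fun t => {t.1})
      (fun t => ({t.1, t.2.1, t.2.2} : Finset (Fin n)))).card)
    (hG : 4 * (e + 3) ^ 6 * n ^ 2 ≤ a) (hn : 1 ≤ n) :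
    Conf (G.image fun t => ({t.1, t.2.1, t.2.2} : Finset (Fin n))) e 4 ∨
    StateFam (G.image fun t => ({t.1, t.2.1, t.2.2} : Finset (Fin n))) 4 4 12
      ((a : ℝ) ^ 2 / (2 * (n : ℝ) ^ 2)) := by
  classical
  obtain ⟨𝓕, h𝓕⟩ : ∃ 𝓕, 𝓕 = clean G (fun t => t.1) (fun t => {t.1})
      (fun t => ({t.1, t.2.1, t.2.2} : Finset (Fin n))) := ⟨_, rfl⟩
  rw [← h𝓕] at ha
  have hmem : ∀ p ∈ 𝓕, p.1 ∈ G ∧ p.2 ∈ G ∧ p.1.1 = p.2.1 ∧
      [p.1.1, p.1.2.1, p.1.2.2, p.2.2.1, p.2.2.2].Nodup := by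
    intro p hp'
    rw [h𝓕] at hp'
    exact mem_clean1 hne hp'
  let κ : (Fin n × Fin n × Fin n) × (Fin n × Fin n × Fin n) → Fin n × Fin n :=
    fun p => (p.1.2.1, p.2.2.1)
  let I : (Fin n × Fin n × Fin n) × (Fin n × Fin n × Fin n) → Finset (Fin n) :=
    fun p => {p.1.2.1, p.2.2.1}
  let W : (Fin n × Fin n × Fin n) × (Fin n × Fin n × Fin n) → Finset (Fin n) :=
    fun p => {p.1.1, p.1.2.1, p.1.2.2, p.2.2.1, p.2.2.2}
  let S : (Fin n × Fin n × Fin n) × (Fin n × Fin n × Fin n) → Finset (Finset (Fin n)) :=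
    fun p => {{p.1.1, p.1.2.1, p.1.2.2}, {p.1.1, p.2.2.1, p.2.2.2}}
  have hSH : ∀ p ∈ 𝓕, S p ⊆ G.image fun t => ({t.1, t.2.1, t.2.2} : Finset (Fin n)) := by
    intro p hp'
    obtain ⟨g1, g2, g3, -⟩ := hmem p hp'
    simp only [S, insert_subset_iff, singleton_subset_iff]
    refine ⟨mem_image_of_mem _ g1, ?_⟩
    rw [g3]
    exact mem_image_of_mem _ g2
  have h1 := hd (Fin n) 3 2 e 6 (G.image fun t => ({t.1, t.2.1, t.2.2} : Finset (Fin n)))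
    _ (Fin n × Fin n) 𝓕 κ I W S ?_ ?_ ?_ (n ^ 2) ?_
  · rcases h1 with h | h
    · exact Or.inl h
    right
    have h2 := arith _ _ _ _ h (hG.trans ha)
    refine ⟨_, clean 𝓕 κ I W, fun p => {p.1.1.1, p.2.1.2.2, p.2.2.2.2},
      fun p => {p.2.1.1, p.1.2.2.2, p.1.1.2.2}, fun p => p.1.1.2.1, fun p => p.1.2.2.1,
      fun p => {p.1.1.1, p.1.1.2.1, p.2.1.1, p.1.2.2.1, p.1.1.2.2, p.2.1.2.2, p.2.2.2.2,
        p.1.2.2.2}, fun p => {{p.1.1.1, p.1.1.2.1, p.1.1.2.2}, {p.2.1.1, p.1.1.2.1, p.2.1.2.2},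
        {p.2.1.1, p.1.2.2.1, p.2.2.2.2}, {p.1.1.1, p.1.2.2.1, p.1.2.2.2}}, ?_, ?_, ?_⟩
    · intro p hp'
      simp only [clean, mem_filter, mem_product] at hp'
      obtain ⟨⟨g1, g2⟩, g3, g4⟩ := hp'
      obtain ⟨a1, a2, a3, a4⟩ := hmem _ g1
      obtain ⟨b1, b2, b3, b4⟩ := hmem _ g2
      simp only [κ, Prod.mk.injEq] at g3
      obtain ⟨k1, k2⟩ := g3
      simp only [List.nodup_cons, List.mem_cons, List.not_mem_nil, or_false, not_or,
        List.nodup_nil, and_true, not_false_eq_true] at a4 b4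
      rw [← k1, ← k2] at b4
      have key : ∀ v, v ∈ W p.1 → v ∈ W p.2 → v = p.1.1.2.1 ∨ v = p.1.2.2.1 := by
        intro v hv1 hv2
        have h5 := @g4 v (mem_inter.2 ⟨hv1, hv2⟩)
        simpa [I] using h5
      have hW1 : ∀ v, v = p.1.1.1 ∨ v = p.1.1.2.2 ∨ v = p.1.2.2.2 → v ∈ W p.1 := by
        rintro v (rfl | rfl | rfl) <;> simp [W]
      have hW2 : ∀ v, v = p.2.1.1 ∨ v = p.2.1.2.2 ∨ v = p.2.2.2.2 → v ∈ W p.2 := by
        rintro v (rfl | rfl | rfl) <;> simp [W]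
      have kk : ∀ u v, (u = p.1.1.1 ∨ u = p.1.1.2.2 ∨ u = p.1.2.2.2) →
          (v = p.2.1.1 ∨ v = p.2.1.2.2 ∨ v = p.2.2.2.2) → u ≠ v := by
        intro u v hu hv huv
        have h5 := key u (hW1 u hu) (by rw [huv]; exact hW2 v hv)
        obtain ⟨⟨x1, x2, x3, x4⟩, ⟨x5, x6, x7⟩, ⟨x8, x9⟩, x10⟩ := a4
        rcases hu with rfl | rfl | rfl
        · rcases h5 with h5 | h5
          · exact x1 h5
          · exact x3 h5
        · rcases h5 with h5 | h5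
          · exact x5 h5.symm
          · exact x8 h5
        · rcases h5 with h5 | h5
          · exact x7 h5.symm
          · exact x10 h5.symm
      obtain ⟨⟨x1, x2, x3, x4⟩, ⟨x5, x6, x7⟩, ⟨x8, x9⟩, x10⟩ := a4
      obtain ⟨⟨y1, y2, y3, y4⟩, ⟨y5, y6, y7⟩, ⟨y8, y9⟩, y10⟩ := b4
      refine ⟨hf (Fin n) p.1.1.1 p.1.1.2.1 p.2.1.1 p.1.2.2.1 p.1.1.2.2 p.2.1.2.2 p.2.2.2.2
        p.1.2.2.2 ?_, ?_⟩
      · simp only [List.nodup_cons, List.mem_cons, List.not_mem_nil, or_false, not_or,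
          List.nodup_nil, and_true, not_false_eq_true]
        refine ⟨⟨x1, kk _ _ (by simp) (by simp), x3, x2, kk _ _ (by simp) (by simp),
          kk _ _ (by simp) (by simp), x4⟩, ⟨fun h => y1 h.symm, x6, x5, y5, y7, x7⟩,
          ⟨y3, (kk _ _ (by simp) (by simp)).symm, y2, y4, (kk _ _ (by simp) (by simp)).symm⟩,
          ⟨fun h => x8 h.symm, fun h => y8 h.symm, y10, x10⟩, ⟨kk _ _ (by simp) (by simp),
          kk _ _ (by simp) (by simp), x9⟩, ⟨y9, (kk _ _ (by simp) (by simp)).symm⟩,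
          (kk _ _ (by simp) (by simp)).symm⟩
      · have s1 := hSH _ g1
        have s2 := hSH _ g2
        simp only [S, insert_subset_iff, singleton_subset_iff] at s1 s2 ⊢
        rw [← k1, ← k2] at s2
        exact ⟨s1.1, s2.1, s2.2, s1.2⟩
    · intro U 𝓖 h𝓖 hU
      have h3 : 𝓖 ⊆ ((U ×ˢ U ×ˢ U) ×ˢ (U ×ˢ U ×ˢ U)) ×ˢ ((U ×ˢ U ×ˢ U) ×ˢ (U ×ˢ U ×ˢ U)) := by
        intro p hp'
        have h4 := hU p hp'
        have h5 := h𝓖 hp'
        simp only [clean, mem_filter, mem_product] at h5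
        obtain ⟨⟨g1, g2⟩, g3, g4⟩ := h5
        obtain ⟨a1, a2, a3, a4⟩ := hmem _ g1
        obtain ⟨b1, b2, b3, b4⟩ := hmem _ g2
        simp only [κ, Prod.mk.injEq] at g3
        obtain ⟨k1, k2⟩ := g3
        simp only [insert_subset_iff, singleton_subset_iff] at h4
        obtain ⟨c1, c2, c3, c4, c5, c6, c7, c8⟩ := h4
        simp only [mem_product]
        rw [← a3, ← b3, ← k1, ← k2]
        exact ⟨⟨⟨c1, c2, c5⟩, ⟨c1, c4, c8⟩⟩, ⟨⟨c3, c2, c6⟩, ⟨c3, c4, c7⟩⟩⟩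
      refine (card_le_card h3).trans (le_of_eq ?_)
      simp only [card_product]
      ring
    · have h3 : (a : ℝ) ^ 2 ≤ 2 * (n : ℝ) ^ 2 * ((clean 𝓕 κ I W).card : ℝ) := by
        have h4 : a ^ 2 ≤ 2 * n ^ 2 * (clean 𝓕 κ I W).card :=
          (Nat.pow_le_pow_left ha 2).trans h2
        exact_mod_cast h4
      have hn0 : (0 : ℝ) < n := by exact_mod_cast hn
      rw [div_le_iff₀ (by positivity)]
      linarith
  · intro p hp'
    exact ⟨(hp (Fin n)).2 _ _ _ _ _ (hmem p hp').2.2.2, hSH p hp'⟩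
  · intro t _ u _ h
    simp only [κ, Prod.mk.injEq] at h
    simp only [I]
    rw [h.1, h.2]
  · intro U 𝓖 h𝓖 hU
    have h3 : 𝓖 ⊆ (U ×ˢ U ×ˢ U) ×ˢ (U ×ˢ U ×ˢ U) := by
      intro p hp'
      have h4 := hU p hp'
      obtain ⟨a1, a2, a3, a4⟩ := hmem _ (h𝓖 hp')
      simp only [W, insert_subset_iff, singleton_subset_iff] at h4
      obtain ⟨c1, c2, c3, c4, c5⟩ := h4
      simp only [mem_product]
      rw [← a3]
      exact ⟨⟨c1, c2, c3⟩, ⟨c1, c4, c5⟩⟩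
    refine (card_le_card h3).trans (le_of_eq ?_)
    simp only [card_product]
    ring
  · intro 𝓖 _
    refine (card_le_univ _).trans ?_
    rw [Fintype.card_prod, Fintype.card_fin, sq]

end Pool.Agent.H66.PS
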