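import Pool.Agent.H66.PS.Lev
import Pool.Agent.H66.BES.Tri

set_option autoImplicit false

namespace Pool.Agent.H66.PS

open Finset SimpleGraph TripartiteFromTriangles Pool.Agent.H66.BES

lemma four_n {n : ℕ} {A δ : ℝ} (hn : (0 : ℝ) < n) (h : A ≤ δ * n) : A * n ≤ δ * (n : ℝ) ^ 2 := by
  nlinarith

/-- the families of level `m ≥ 2` -/
theorem level (hd : P_double) (hg : P_glue) (hp : P_pre) (hf : P_four) (e k : ℕ) :
    ∃ c : ℝ, 0 < c ∧ ∃ C : ℝ, 0 < C ∧ ∀ n : ℕ, 1 ≤ n → ∀ (G : Finset (Fin n × Fin n × Fin n)),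
      (∀ t ∈ G, t.1 ≠ t.2.1 ∧ t.1 ≠ t.2.2 ∧ t.2.1 ≠ t.2.2) → ∀ δ : ℝ, 0 ≤ δ → δ ≤ 1 →
      δ * (n : ℝ) ^ 2 ≤ G.card → C ≤ δ ^ (2 ^ (k + 1)) * n →
      Conf (G.image fun t => ({t.1, t.2.1, t.2.2} : Finset (Fin n))) e (k + 4) ∨
      StateFam (G.image fun t => ({t.1, t.2.1, t.2.2} : Finset (Fin n))) (k + 4) (2 ^ (k + 2))
        (3 * 2 ^ (k + 2)) (c * δ ^ (2 ^ (k + 2)) * (n : ℝ) ^ (k + 4)) := by
  classical
  induction k with
  | zero =>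
    refine ⟨1 / 8, by norm_num, 8 * ((e : ℝ) + 3) ^ 6, by positivity, ?_⟩
    intro n hn G hne δ hδ0 hδ1 hG hC
    have hn0 : (0 : ℝ) < n := by exact_mod_cast hn
    have hC' : 8 * ((e : ℝ) + 3) ^ 6 ≤ δ ^ 2 * n := by simpa using hC
    have he0 : (0 : ℝ) ≤ e := by positivity
    -- the first doubling
    have h1 : 4 * (e + 2) ^ 3 * n ≤ G.card := by
      have h2 : 4 * ((e : ℝ) + 2) ^ 3 ≤ 8 * ((e : ℝ) + 3) ^ 6 := by
        have h3 : ((e : ℝ) + 2) ^ 3 ≤ ((e : ℝ) + 3) ^ 3 := by gcongr; linarith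
        have h4 : (1 : ℝ) ≤ ((e : ℝ) + 3) ^ 3 := one_le_pow₀ (by linarith)
        have h5 : ((e : ℝ) + 3) ^ 6 = ((e : ℝ) + 3) ^ 3 * ((e : ℝ) + 3) ^ 3 := by ring
        nlinarith
      have h3 : δ ^ 2 * n ≤ δ * n := by
        have : δ ^ 2 ≤ δ := by nlinarith
        nlinarith
      have h4 : 4 * ((e : ℝ) + 2) ^ 3 ≤ δ * n := by linarith
      have h5 : 4 * ((e : ℝ) + 2) ^ 3 * n ≤ G.card := (four_n hn0 h4).trans hG
      exact_mod_cast h5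
    rcases base1 hd hp n e G hne h1 with h2 | h2
    · exact Or.inl (h2.mono (by omega))
    obtain ⟨a, ha⟩ : ∃ a, a = (clean G (fun t => t.1) (fun t => {t.1})
      (fun t => ({t.1, t.2.1, t.2.2} : Finset (Fin n)))).card := ⟨_, rfl⟩
    rw [← ha] at h2
    have h3 : δ ^ 2 * (n : ℝ) ^ 3 ≤ 2 * a := by
      have h4 : (G.card : ℝ) ^ 2 ≤ 2 * n * a := by exact_mod_cast h2
      have h5 : (δ * (n : ℝ) ^ 2) ^ 2 ≤ (G.card : ℝ) ^ 2 :=
        pow_le_pow_left₀ (by positivity) hG 2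
      have h6 : n * (δ ^ 2 * (n : ℝ) ^ 3) ≤ n * (2 * a) := by nlinarith
      exact le_of_mul_le_mul_left h6 hn0
    have h4 : 4 * (e + 3) ^ 6 * n ^ 2 ≤ a := by
      have h5 : 8 * ((e : ℝ) + 3) ^ 6 * (n : ℝ) ^ 2 ≤ δ ^ 2 * n * (n : ℝ) ^ 2 := by gcongr
      have h6 : δ ^ 2 * n * (n : ℝ) ^ 2 = δ ^ 2 * (n : ℝ) ^ 3 := by ring
      have h7 : 4 * ((e : ℝ) + 3) ^ 6 * (n : ℝ) ^ 2 ≤ a := by linarith
      exact_mod_cast h7
    rcases base2 hd hp hf n e G hne a ha.le h4 hn with h5 | h5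
    · exact Or.inl h5
    right
    obtain ⟨ι, 𝓕, I, J, w, s, W, S, g1, g2, g3⟩ := h5
    refine ⟨ι, 𝓕, I, J, w, s, W, S, g1, g2, le_trans ?_ g3⟩
    have h6 : (δ ^ 2 * (n : ℝ) ^ 3 / 2) ^ 2 ≤ (a : ℝ) ^ 2 :=
      pow_le_pow_left₀ (by positivity) (by linarith) 2
    rw [le_div_iff₀ (by positivity)]
    refine le_trans (le_of_eq ?_) h6
    ring
  | succ k ih =>
    obtain ⟨c, hc, C, hC, hmain⟩ := ih
    refine ⟨c ^ 2 / 2, by positivity,
      max C (4 * ((e : ℝ) + (k + 4 : ℕ)) ^ (3 * 2 ^ (k + 2)) / c), lt_max_of_lt_left hC, ?_⟩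
    intro n hn G hne δ hδ0 hδ1 hG hCn
    have hn0 : (0 : ℝ) < n := by exact_mod_cast hn
    have h1 : C ≤ δ ^ (2 ^ (k + 1)) * n := by
      have h2 : δ ^ (2 ^ (k + 1 + 1)) ≤ δ ^ (2 ^ (k + 1)) :=
        pow_le_pow_of_le_one hδ0 hδ1 (Nat.pow_le_pow_right (by norm_num) (by omega))
      calc C ≤ _ := le_max_left _ _
        _ ≤ _ := hCn
        _ ≤ _ := by gcongr
    rcases hmain n hn G hne δ hδ0 hδ1 hG h1 with h | h
    · exact Or.inl (h.mono (by omega))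
    have h2 : 4 * ((e : ℝ) + (k + 4 : ℕ)) ^ (3 * 2 ^ (k + 2)) * (n : ℝ) ^ (k + 4 - 1) ≤
        c * δ ^ (2 ^ (k + 2)) * (n : ℝ) ^ (k + 4) := by
      have h3 : 4 * ((e : ℝ) + (k + 4 : ℕ)) ^ (3 * 2 ^ (k + 2)) / c ≤ δ ^ (2 ^ (k + 1 + 1)) * n :=
        (le_max_right _ _).trans hCn
      rw [div_le_iff₀ hc] at h3
      have h4 : k + 4 - 1 = k + 3 := by omega
      rw [h4]
      calc 4 * ((e : ℝ) + (k + 4 : ℕ)) ^ (3 * 2 ^ (k + 2)) * (n : ℝ) ^ (k + 3)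
          ≤ (δ ^ (2 ^ (k + 1 + 1)) * n * c) * (n : ℝ) ^ (k + 3) := by gcongr
        _ = _ := by ring
    have h5 := step hd hg _ (k + 4) (2 ^ (k + 2)) (3 * 2 ^ (k + 2)) e Nat.one_le_two_pow
      (by omega) _ h2 h
    rcases h5 with h5 | h5
    · exact Or.inl h5
    right
    have e1 : 2 * 2 ^ (k + 2) = 2 ^ (k + 1 + 2) := by ring
    have e2 : 2 * (3 * 2 ^ (k + 2)) = 3 * 2 ^ (k + 1 + 2) := by ring
    have e3 : k + 4 + 1 = k + 1 + 4 := by omega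
    rw [e1, e2, e3] at h5
    obtain ⟨ι, 𝓕, I, J, w, s, W, S, g1, g2, g3⟩ := h5
    refine ⟨ι, 𝓕, I, J, w, s, W, S, g1, g2, le_trans (le_of_eq ?_) g3⟩
    have h6 : k + 4 - 1 = k + 3 := by omega
    rw [h6]
    have h7 : (n : ℝ) ^ (k + 3) ≠ 0 := by positivity
    field_simp
    ring

theorem t_main (hd : P_double) (hg : P_glue) (hp : P_pre) (hf : P_four) : P_main := by
  classical
  intro K e he
  have hone : ∀ (n : ℕ) (G : Finset (Fin n × Fin n × Fin n)),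
      (∀ t ∈ G, t.1 ≠ t.2.1 ∧ t.1 ≠ t.2.2 ∧ t.2.1 ≠ t.2.2) → G.Nonempty → e ≤ 1 →
      Conf (G.image fun t => ({t.1, t.2.1, t.2.2} : Finset (Fin n))) e 2 := by
    rintro n G hne ⟨t, ht⟩ he1
    obtain ⟨a1, a2, a3⟩ := hne t ht
    refine conf_of_pre ((hp (Fin n)).1 t.1 t.2.1 t.2.2 a1 a2 a3) ?_ he1
    rw [singleton_subset_iff]
    exact mem_image_of_mem _ ht
  rcases Nat.eq_zero_or_pos K with rfl | hK
  · refine ⟨1, one_pos, fun n hn G _ hne => ?_⟩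
    rcases G.eq_empty_or_nonempty with rfl | hG
    · right
      simp
    · exact Or.inl (hone n G hne hG (by simpa using he))
  rcases Nat.eq_or_lt_of_le (show 1 ≤ K from hK) with hK1 | hK1
  · subst hK1
    refine ⟨4 * ((e : ℝ) + 2) ^ 3, by positivity, fun n hn G _ hne => ?_⟩
    have hn0 : (0 : ℝ) < n := by exact_mod_cast hn
    have h0 : (n : ℝ) ^ ((2 : ℝ) - 2 / (2 : ℝ) ^ 1) = n := by
      have : (2 : ℝ) - 2 / (2 : ℝ) ^ 1 = 1 := by norm_num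
      rw [this, Real.rpow_one]
    rw [h0]
    by_cases hG : 4 * ((e : ℝ) + 2) ^ 3 * n < G.card
    · left
      have h1 : 4 * (e + 2) ^ 3 * n ≤ G.card := by exact_mod_cast hG.le
      rcases base1 (e := e) hd hp n G hne h1 with h2 | h2
      · exact h2
      have hGp : 0 < G.card := by
        have : (0 : ℝ) < G.card := lt_of_le_of_lt (by positivity) hG
        exact_mod_cast this
      have h3 : 0 < (clean G (fun t => t.1) (fun t => {t.1})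
          (fun t => ({t.1, t.2.1, t.2.2} : Finset (Fin n)))).card := by
        by_contra h4
        have h5 : (clean G (fun t => t.1) (fun t => {t.1})
          (fun t => ({t.1, t.2.1, t.2.2} : Finset (Fin n)))).card = 0 := by omega
        rw [h5, mul_zero] at h2
        have : 0 < G.card ^ 2 := by positivity
        omega
      obtain ⟨p, hp'⟩ := card_pos.1 h3
      obtain ⟨g1, g2, g3, g4⟩ := mem_clean1 hne hp'
      refine conf_of_pre ((hp (Fin n)).2 _ _ _ _ _ g4) ?_ (by simpa using he)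
      simp only [insert_subset_iff, singleton_subset_iff]
      refine ⟨mem_image_of_mem _ g1, ?_⟩
      rw [g3]
      exact mem_image_of_mem _ g2
    · exact Or.inr (not_lt.1 hG)
  obtain ⟨k, rfl⟩ : ∃ k, K = k + 2 := ⟨K - 2, by omega⟩
  obtain ⟨c, hc, C, hC, hmain⟩ := level hd hg hp hf e k
  refine ⟨max C 1, lt_max_of_lt_left hC, fun n hn G hlin hne => ?_⟩
  have hn0 : (0 : ℝ) < n := by exact_mod_cast hn
  by_cases hG : max C 1 * (n : ℝ) ^ (2 - 2 / (2 : ℝ) ^ (k + 2)) < G.card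
  swap
  · exact Or.inr (not_lt.1 hG)
  left
  have hC1 : 1 ≤ max C 1 := le_max_right _ _
  obtain ⟨δ, hδ⟩ : ∃ δ : ℝ, δ = max C 1 * (n : ℝ) ^ (-(2 / (2 : ℝ) ^ (k + 2))) := ⟨_, rfl⟩
  have hδ0 : 0 < δ := by rw [hδ]; positivity
  have hsq : (n : ℝ) ^ (2 - 2 / (2 : ℝ) ^ (k + 2)) =
      (n : ℝ) ^ (-(2 / (2 : ℝ) ^ (k + 2))) * (n : ℝ) ^ 2 := by
    rw [sub_eq_add_neg, add_comm, Real.rpow_add hn0]
    congr 1
    exact_mod_cast Real.rpow_natCast (n : ℝ) 2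
  have h1 : δ * (n : ℝ) ^ 2 ≤ G.card := by
    rw [hδ, mul_assoc, ← hsq]
    exact hG.le
  have hδ1 : δ ≤ 1 := by
    have h2 : (G.card : ℝ) ≤ (n : ℝ) ^ 2 := by exact_mod_cast card_le_sq G hlin
    have h3 : δ * (n : ℝ) ^ 2 ≤ 1 * (n : ℝ) ^ 2 := by linarith
    exact le_of_mul_le_mul_right h3 (by positivity)
  have h2 : C ≤ δ ^ (2 ^ (k + 1)) * n := by
    have h3 : δ ^ (2 ^ (k + 1)) = (max C 1) ^ (2 ^ (k + 1)) * (n : ℝ)⁻¹ := by
      rw [hδ, mul_pow]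
      congr 1
      rw [← Real.rpow_natCast, ← Real.rpow_mul hn0.le, ← Real.rpow_neg_one]
      congr 1
      push_cast
      have : (2 : ℝ) ^ (k + 2) = 2 * 2 ^ (k + 1) := by ring
      rw [this]
      field_simp
    rw [h3, mul_assoc, inv_mul_cancel₀ hn0.ne', mul_one]
    calc C ≤ max C 1 := le_max_left _ _
      _ = (max C 1) ^ 1 := (pow_one _).symm
      _ ≤ _ := pow_le_pow_right₀ hC1 Nat.one_le_two_pow
  rcases hmain n hn G hne δ hδ0.le hδ1 h1 h2 with h | h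
  · exact h
  obtain ⟨ι, 𝓕, I, J, w, s, W, S, g1, g2, g3⟩ := h
  have h4 : 0 < 𝓕.card := by
    have : (0 : ℝ) < 𝓕.card := lt_of_lt_of_le (by positivity) g3
    exact_mod_cast this
  obtain ⟨t, ht⟩ := card_pos.1 h4
  exact conf_of_pre (g1 t ht).1.pre (g1 t ht).2 he

end Pool.Agent.H66.PS
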