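import Pool.Agent.H66.PS.Defs
import Pool.Graph.R_seed8.Y436.Avg

set_option autoImplicit false

/-!
# Reduction of the `r`-uniform case to triple systems (subtask by helper284)
-/

namespace Pool.Agent.H66.PS

open Finset SimpleGraph TripartiteFromTriangles Pool.Agent.H66.BES
open Pool.Agent.Y436.Grow Pool.Agent.Y436.Avg Pool.Agent.Y436

theorem t_final (hm : P_main) : P_final := by
  classical
  intro q e he
  obtain ⟨K, hK⟩ : ∃ K : ℕ, K = Nat.clog 2 e := ⟨_, rfl⟩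
  have heK : e ≤ 2 ^ K := by
    rw [hK]
    exact Nat.le_pow_clog (by norm_num) e
  have he0 : (0 : ℝ) < e := by exact_mod_cast he
  obtain ⟨C, hC, hN⟩ := hm K e heK
  obtain ⟨A, hA⟩ : ∃ A : ℝ, A = ((q : ℝ) + 3) ^ (q + 3) * (((q : ℝ) + 3) ^ 2 * e) := ⟨_, rfl⟩
  have hA0 : 0 < A := by
    rw [hA]
    positivity
  rw [← hK]
  refine ⟨A * C, mul_pos hA0 hC, fun n H h3 hno => ?_⟩
  rcases Nat.eq_zero_or_pos n with hn0 | hn1
  · have hH0 : H = ∅ := by
      rw [eq_empty_iff_forall_notMem]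
      intro f hf
      have h1 := h3 f hf
      have h2 : f.card ≤ Fintype.card (Fin n) := card_le_univ f
      rw [Fintype.card_fin] at h2
      omega
    rw [hH0, card_empty, Nat.cast_zero]
    exact mul_nonneg (mul_pos hA0 hC).le (Real.rpow_nonneg (Nat.cast_nonneg n) _)
  have hn1 : 1 ≤ n := hn1
  have hno' : NoConf H e ((q + 1) * e + (K + 1) + 1) := by
    intro S hS hSe
    have h1 := hno S hS hSe
    omega
  have h3' : ∀ f ∈ H, f.card = (q + 1) + 2 := h3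
  -- enumerations
  have henum : ∀ f : Finset (Fin n), ∃ o : Fin (q + 3) → Fin n, f ∈ H →
      Function.Injective o ∧ (∀ v, v ∈ f ↔ ∃ i, o i = v) := by
    intro f
    by_cases hf : f ∈ H
    · obtain ⟨o, ho1, ho2, -⟩ := exists_enum (fun _ => 0) f (h3 f hf)
      exact ⟨o, fun _ => ⟨ho1, ho2⟩⟩
    · exact ⟨fun _ => ⟨0, by omega⟩, fun h => absurd h hf⟩
  choose o ho using henum
  -- colouring
  obtain ⟨χ, hχ⟩ := Color.exists_col (κ := Fin (q + 3)) H o (fun f hf => (ho f hf).1) id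
  obtain ⟨G1, hG1⟩ : ∃ G1 : Finset (Finset (Fin n)),
    G1 = H.filter fun f => ∀ k, χ (o f k) = id k := ⟨_, rfl⟩
  rw [← hG1, Fintype.card_fin] at hχ
  have hG1H : G1 ⊆ H := by
    rw [hG1]
    exact filter_subset _ _
  obtain ⟨G, hGG, hlin, hGc⟩ := exists_linear h3' (by omega : 1 ≤ K + 1) hno' hG1H
  have hGH : G ⊆ H := hGG.trans hG1H
  have hsize : (H.card : ℝ) ≤ A * G.card := by
    have e2 : (H.card : ℝ) ≤ ((q : ℝ) + 3) ^ (q + 3) * G1.card := by exact_mod_cast hχ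
    have e3 : (G1.card : ℝ) ≤ ((q : ℝ) + 3) ^ 2 * e * G.card := by
      have e4 : (G1.card : ℝ) ≤ (((q + 1 + 2) ^ 2 * e * G.card : ℕ) : ℝ) := by
        exact_mod_cast hGc
      refine e4.trans (le_of_eq ?_)
      push_cast
      ring
    rw [hA]
    calc (H.card : ℝ) ≤ ((q : ℝ) + 3) ^ (q + 3) * G1.card := e2
      _ ≤ ((q : ℝ) + 3) ^ (q + 3) * (((q : ℝ) + 3) ^ 2 * e * G.card) := by gcongr
      _ = _ := by ring
  have hχf : ∀ f ∈ G, ∀ i, χ (o f i) = i := by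
    intro f hf i
    have h1 := hGG hf
    rw [hG1, mem_filter] at h1
    exact h1.2 i
  have hinj : ∀ f ∈ G, Function.Injective (o f) := fun f hf => (ho f (hGH hf)).1
  have hmem : ∀ f ∈ G, ∀ v, v ∈ f ↔ ∃ i, o f i = v := fun f hf => (ho f (hGH hf)).2
  -- the indices
  have val2 : ((2 : Fin (q + 3)) : ℕ) = 2 := by
    show 2 % (q + 3) = 2
    exact Nat.mod_eq_of_lt (by omega)
  have h01 : (0 : Fin (q + 3)) ≠ 1 := by simp
  have h02 : (0 : Fin (q + 3)) ≠ 2 := by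
    rw [Ne, Fin.ext_iff, val2]
    simp
  have h12 : (1 : Fin (q + 3)) ≠ 2 := by
    rw [Ne, Fin.ext_iff, val2]
    simp
  have hshare2 : ∀ f ∈ G, ∀ g ∈ G, ∀ u v : Fin n, u ≠ v → u ∈ f → v ∈ f → u ∈ g → v ∈ g →
      f = g := by
    intro f hf g hg u v huv h1 h2 h4 h5
    by_contra hfg
    have h6 := hlin f hf g hg hfg
    have h7 : 1 < (f ∩ g).card :=
      one_lt_card.2 ⟨u, mem_inter.2 ⟨h1, h4⟩, v, mem_inter.2 ⟨h2, h5⟩, huv⟩
    omega
  have hshare : ∀ f ∈ G, ∀ g ∈ G, ∀ i k : Fin (q + 3), i ≠ k → o f i = o g i →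
      o f k = o g k → f = g := by
    intro f hf g hg i k hik h1 h2
    exact hshare2 f hf g hg (o f i) (o f k) (fun h => hik (hinj f hf h))
      ((hmem f hf _).2 ⟨i, rfl⟩) ((hmem f hf _).2 ⟨k, rfl⟩)
      ((hmem g hg _).2 ⟨i, h1.symm⟩) ((hmem g hg _).2 ⟨k, h2.symm⟩)
  -- the triples
  obtain ⟨tr, htr⟩ : ∃ tr : Finset (Fin n) → Fin n × Fin n × Fin n,
    ∀ f, tr f = (o f 0, o f 1, o f 2) := ⟨fun f => (o f 0, o f 1, o f 2), fun _ => rfl⟩
  have htrinj : Set.InjOn tr (G : Set (Finset (Fin n))) := by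
    intro f hf g hg h
    rw [htr, htr, Prod.mk.injEq, Prod.mk.injEq] at h
    exact hshare f (mem_coe.1 hf) g (mem_coe.1 hg) 0 1 h01 h.1 h.2.1
  have hFc : (G.image tr).card = G.card := card_image_of_injOn htrinj
  have hdis : ExplicitDisjoint (G.image tr) := by
    refine ⟨?_, ?_, ?_⟩
    · intro a b c a' h1 h2
      obtain ⟨f, hf, h1⟩ := mem_image.1 h1
      obtain ⟨g, hg, h2⟩ := mem_image.1 h2
      rw [htr, Prod.mk.injEq, Prod.mk.injEq] at h1 h2
      have h4 := hshare f hf g hg 1 2 h12 (h1.2.1.trans h2.2.1.symm) (h1.2.2.trans h2.2.2.symm)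
      rw [← h1.1, ← h2.1, h4]
    · intro a b c b' h1 h2
      obtain ⟨f, hf, h1⟩ := mem_image.1 h1
      obtain ⟨g, hg, h2⟩ := mem_image.1 h2
      rw [htr, Prod.mk.injEq, Prod.mk.injEq] at h1 h2
      have h4 := hshare f hf g hg 0 2 h02 (h1.1.trans h2.1.symm) (h1.2.2.trans h2.2.2.symm)
      rw [← h1.2.1, ← h2.2.1, h4]
    · intro a b c c' h1 h2
      obtain ⟨f, hf, h1⟩ := mem_image.1 h1
      obtain ⟨g, hg, h2⟩ := mem_image.1 h2
      rw [htr, Prod.mk.injEq, Prod.mk.injEq] at h1 h2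
      have h4 := hshare f hf g hg 0 1 h01 (h1.1.trans h2.1.symm) (h1.2.1.trans h2.2.1.symm)
      rw [← h1.2.2, ← h2.2.2, h4]
  have hne : ∀ t ∈ G.image tr, t.1 ≠ t.2.1 ∧ t.1 ≠ t.2.2 ∧ t.2.1 ≠ t.2.2 := by
    intro t ht
    obtain ⟨f, hf, rfl⟩ := mem_image.1 ht
    rw [htr]
    exact ⟨fun h => h01 (hinj f hf h), fun h => h02 (hinj f hf h), fun h => h12 (hinj f hf h)⟩
  rcases hN n hn1 (G.image tr) hdis hne with hconf | hsmall
  swap
  · rw [hFc] at hsmall
    calc (H.card : ℝ) ≤ A * G.card := hsize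
      _ ≤ A * (C * (n : ℝ) ^ (2 - 2 / (2 : ℝ) ^ K)) := by gcongr
      _ = _ := by ring
  exfalso
  obtain ⟨T, hT, hTe, hTc⟩ := hconf
  -- the configuration
  obtain ⟨co, hco⟩ : ∃ co : Finset (Fin n) → Finset (Fin n),
    ∀ f, co f = {o f 0, o f 1, o f 2} := ⟨fun f => {o f 0, o f 1, o f 2}, fun _ => rfl⟩
  have hco3 : ∀ f ∈ G, (co f).card = 3 := by
    intro f hf
    rw [hco]
    exact card_eq_three.2 ⟨_, _, _, fun h => h01 (hinj f hf h), fun h => h02 (hinj f hf h),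
      fun h => h12 (hinj f hf h), rfl⟩
  have hcof : ∀ f ∈ G, co f ⊆ f := by
    intro f hf v hv
    rw [hco, mem_insert, mem_insert, mem_singleton] at hv
    rcases hv with rfl | rfl | rfl
    · exact (hmem f hf _).2 ⟨_, rfl⟩
    · exact (hmem f hf _).2 ⟨_, rfl⟩
    · exact (hmem f hf _).2 ⟨_, rfl⟩
  have hcoinj : Set.InjOn co (G : Set (Finset (Fin n))) := by
    intro f hf g hg h
    obtain ⟨u, hu, v, hv, huv⟩ := one_lt_card.1 (show 1 < (co f).card by rw [hco3 f hf]; omega)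
    exact hshare2 f hf g hg u v huv (hcof f hf hu) (hcof f hf hv) (hcof g hg (h ▸ hu))
      (hcof g hg (h ▸ hv))
  obtain ⟨S0, hS0⟩ : ∃ S0 : Finset (Finset (Fin n)), S0 = G.filter fun f => co f ∈ T := ⟨_, rfl⟩
  have hS0G : S0 ⊆ G := by
    rw [hS0]
    exact filter_subset _ _
  have hS0T : S0.image co = T := by
    ext t
    rw [hS0]
    constructor
    · intro ht
      obtain ⟨f, hf, rfl⟩ := mem_image.1 ht
      exact (mem_filter.1 hf).2
    · intro ht
      obtain ⟨x, hx, hxt⟩ := mem_image.1 (hT ht)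
      obtain ⟨f, hf, rfl⟩ := mem_image.1 hx
      rw [htr] at hxt
      have h1 : co f = t := by
        rw [hco]
        exact hxt
      exact mem_image.2 ⟨f, mem_filter.2 ⟨hf, by rw [h1]; exact ht⟩, h1⟩
  have hS0e : S0.card = e := by
    rw [← hTe, ← hS0T, card_image_of_injOn (hcoinj.mono (by exact_mod_cast hS0G))]
  have hbig := hno S0 (hS0G.trans hGH) hS0e
  have hsub : S0.biUnion id ⊆ T.biUnion id ∪ S0.biUnion fun f => f \ co f := by
    intro v hv
    obtain ⟨f, hf, hvf⟩ := mem_biUnion.1 hv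
    by_cases h : v ∈ co f
    · refine mem_union_left _ (mem_biUnion.2 ⟨co f, ?_, h⟩)
      rw [← hS0T]
      exact mem_image_of_mem _ hf
    · exact mem_union_right _ (mem_biUnion.2 ⟨f, hf, mem_sdiff.2 ⟨hvf, h⟩⟩)
  have hrest : (S0.biUnion fun f => f \ co f).card ≤ e * q := by
    refine card_biUnion_le.trans ?_
    have h1 : ∀ f ∈ S0, (f \ co f).card = q := by
      intro f hf
      rw [card_sdiff_of_subset (hcof f (hS0G hf)), h3 f (hGH (hS0G hf)), hco3 f (hS0G hf)]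
      rfl
    rw [sum_congr rfl h1, sum_const, hS0e, smul_eq_mul]
  have h1 := card_le_card hsub
  have h2 := card_union_le (T.biUnion id) (S0.biUnion fun f => f \ co f)
  have h4 : (q + 1) * e = e * q + e := by ring
  omega

end Pool.Agent.H66.PS
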