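import Pool.Agent.H66.PS.Defs
import Pool.Agent.H66.PS.Gro
import Pool.Agent.H66.PS.Dbl
import Pool.Agent.H66.PS.Glu
import Pool.Agent.H66.PS.Bas
import Pool.Agent.H66.PS.Lev
import Pool.Agent.H66.PS.Main
import Pool.Agent.H66.PS.Red
import Pool.Agent.H66.BES.Deg

set_option autoImplicit false

namespace Pool.Agent.H66.PS

theorem t_double' : P_double := t_double t_growth Pool.Agent.H66.BES.t_mindeg

theorem t_main' : P_main := t_main t_double' t_glue t_pre t_four

theorem t_final' : P_final := t_final t_main'

end Pool.Agent.H66.PS
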